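import Pool.Agent.H526R2.LS.Supp

set_option autoImplicit false
set_option linter.unusedSectionVars false

/-! Block permutations of the vertices, and the labelled gadget relation. -/

namespace Pool.Agent.H526R2.LS

open Finset

/-- the permutation of the unordered pairs induced by a permutation of the vertices -/
def sym2Perm {V : Type*} (p : Equiv.Perm V) : Equiv.Perm (Sym2 V) where
  toFun := Sym2.map p
  invFun := Sym2.map p.symm
  left_inv e := by
    rw [Sym2.map_map]
    have : (p.symm : V → V) ∘ p = id := by ext x; simp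
    rw [this, Sym2.map_id]
    rfl
  right_inv e := by
    rw [Sym2.map_map]
    have : (p : V → V) ∘ p.symm = id := by ext x; simp
    rw [this, Sym2.map_id]
    rfl

@[simp] theorem sym2Perm_apply {V : Type*} (p : Equiv.Perm V) (e : Sym2 V) :
    sym2Perm p e = Sym2.map p e := rfl

/-- the same as a homomorphism -/
def sym2Hom (V : Type*) : Equiv.Perm V →* Equiv.Perm (Sym2 V) where
  toFun := sym2Perm
  map_one' := by
    ext e
    rw [sym2Perm_apply]
    have : ((1 : Equiv.Perm V) : V → V) = id := rfl
    rw [this, Sym2.map_id]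
    rfl
  map_mul' p q := by
    ext e
    rw [Equiv.Perm.mul_apply, sym2Perm_apply, sym2Perm_apply, sym2Perm_apply, Sym2.map_map]
    rfl

/-- the permutation of the ordered pairs induced by a permutation of the vertices -/
def pairPerm {V : Type*} (p : Equiv.Perm V) : Equiv.Perm (V × V) := Equiv.prodCongr p p

@[simp] theorem pairPerm_apply {V : Type*} (p : Equiv.Perm V) (e : V × V) :
    pairPerm p e = (p e.1, p e.2) := rfl

/-- the same as a homomorphism -/
def pairHom (V : Type*) : Equiv.Perm V →* Equiv.Perm (V × V) where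
  toFun := pairPerm
  map_one' := by
    ext e <;> rfl
  map_mul' p q := by
    ext e <;> rfl

variable {V B : Type*} [Fintype B] [DecidableEq B] {r : ℕ}

/-- The permutation of the vertices which permutes the block `j` by `σ` and fixes all the other
vertices. -/
noncomputable def blockPerm (ι : Fin r × B ↪ V) (j : Fin r) (σ : Equiv.Perm B) : Equiv.Perm V :=
  (Equiv.Perm.prodExtendRight j σ).viaEmbedding ι

/-- the action of a power of the alternating group -/
def blockHom (B : Type*) [Fintype B] [DecidableEq B] (r : ℕ) :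
    (Fin r → alternatingGroup B) →* Equiv.Perm (Fin r × B) where
  toFun γ :=
    { toFun := fun p => (p.1, (γ p.1 : Equiv.Perm B) p.2)
      invFun := fun p => (p.1, (γ p.1 : Equiv.Perm B).symm p.2)
      left_inv := fun p => by simp
      right_inv := fun p => by simp }
  map_one' := by
    ext p <;> rfl
  map_mul' γ δ := by
    ext p <;> rfl

/-- the action of a power of the alternating group on the vertices -/
noncomputable def actV (ι : Fin r × B ↪ V) : (Fin r → alternatingGroup B) →* Equiv.Perm V :=
  (Equiv.Perm.viaEmbeddingHom ι).comp (blockHom B r)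

theorem actV_mk (ι : Fin r × B ↪ V) (γ : Fin r → alternatingGroup B) (j : Fin r) (b : B) :
    actV ι γ (ι (j, b)) = ι (j, (γ j : Equiv.Perm B) b) := by
  unfold actV
  rw [MonoidHom.comp_apply, Equiv.Perm.viaEmbeddingHom_apply, Equiv.Perm.viaEmbedding_apply]
  rfl

theorem actV_out (ι : Fin r × B ↪ V) (γ : Fin r → alternatingGroup B) {x : V}
    (hx : x ∉ Set.range ι) : actV ι γ x = x := by
  unfold actV
  rw [MonoidHom.comp_apply, Equiv.Perm.viaEmbeddingHom_apply,
    Equiv.Perm.viaEmbedding_apply_of_notMem _ _ _ hx]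

theorem actV_single (ι : Fin r × B ↪ V) (j : Fin r) (a : alternatingGroup B) :
    actV ι (Pi.mulSingle j a) = blockPerm ι j a := by
  unfold actV blockPerm
  rw [MonoidHom.comp_apply, Equiv.Perm.viaEmbeddingHom_apply]
  congr 1
  ext p
  · rw [Equiv.Perm.fst_prodExtendRight]
    rfl
  · obtain ⟨i, b⟩ := p
    by_cases h : i = j
    · subst h
      rw [Equiv.Perm.prodExtendRight_apply_eq]
      show ((Pi.mulSingle i a : Fin r → alternatingGroup B) i : Equiv.Perm B) b = _
      rw [Pi.mulSingle_eq_same]
    · rw [Equiv.Perm.prodExtendRight_apply_ne _ h]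
      show ((Pi.mulSingle j a : Fin r → alternatingGroup B) i : Equiv.Perm B) b = _
      rw [Pi.mulSingle_eq_of_ne h]
      rfl

/-- the labels of the vertices of the gadget of `v` -/
def lab (k : ℕ) (v : Fin k) : AddSubgroup (Fin k → ZMod 5) where
  carrier := {f | f v = 0 ∧ ∑ u, f u = 0}
  zero_mem' := by simp
  add_mem' := by
    rintro a b ⟨h1, h2⟩ ⟨h3, h4⟩
    refine ⟨by simp [h1, h3], ?_⟩
    simp only [Pi.add_apply, Finset.sum_add_distrib, h2, h4, add_zero]
  neg_mem' := by
    rintro a ⟨h1, h2⟩
    refine ⟨by simp [h1], ?_⟩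
    simp only [Pi.neg_apply, Finset.sum_neg_distrib, h2, neg_zero]

theorem mem_lab {k : ℕ} {v : Fin k} {f : Fin k → ZMod 5} :
    f ∈ lab k v ↔ f v = 0 ∧ ∑ u, f u = 0 := Iff.rfl

theorem card_lab {k : ℕ} (hk : 2 ≤ k) (v : Fin k) : Nat.card (lab k v) = 5 ^ (k - 2) := by
  classical
  have : Fact (Nat.Prime 5) := ⟨by norm_num⟩
  let φ : (Fin k → ZMod 5) →+ ZMod 5 × ZMod 5 :=
    { toFun := fun f => (f v, ∑ u, f u)
      map_zero' := by simp
      map_add' := by
        intro a b
        simp [Finset.sum_add_distrib] }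
  have hker : φ.ker = lab k v := by
    ext f
    rw [AddMonoidHom.mem_ker, mem_lab]
    show ((f v, ∑ u, f u) : ZMod 5 × ZMod 5) = 0 ↔ _
    rw [Prod.ext_iff]
    rfl
  have hsurj : Function.Surjective φ := by
    rintro ⟨a, b⟩
    obtain ⟨w, hw⟩ : ∃ w : Fin k, w ≠ v := by
      have : Nontrivial (Fin k) := Fin.nontrivial_iff_two_le.2 hk
      exact exists_ne v
    refine ⟨Pi.single v a + Pi.single w (b - a), ?_⟩
    show (((Pi.single v a + Pi.single w (b - a) : Fin k → ZMod 5) v,
      ∑ u, (Pi.single v a + Pi.single w (b - a) : Fin k → ZMod 5) u) : ZMod 5 × ZMod 5) = (a, b)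
    apply Prod.ext
    · simp [Pi.single_eq_of_ne hw.symm]
    · simp [Finset.sum_add_distrib]
  have h1 : Nat.card φ.ker * φ.ker.index = Nat.card (Fin k → ZMod 5) := AddSubgroup.card_mul_index _
  rw [AddSubgroup.index_ker] at h1
  have h2 : Nat.card φ.range = 25 := by
    rw [AddMonoidHom.range_eq_top.2 hsurj, AddSubgroup.card_top]
    simp
  have h3 : Nat.card (Fin k → ZMod 5) = 5 ^ k := by
    simp
  rw [h2, h3, hker] at h1
  have h4 : 5 ^ k = 5 ^ (k - 2) * 25 := by
    have : k = (k - 2) + 2 := by omega
    conv_lhs => rw [this]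
    rw [pow_add]
    norm_num
  rw [h4] at h1
  exact Nat.eq_of_mul_eq_mul_right (by norm_num) h1

/-- there is an identification of the block with the labels -/
theorem exists_lab {k : ℕ} (hk : 2 ≤ k) (hB : Fintype.card B = 5 ^ (k - 2)) (v : Fin k) :
    Nonempty (B ≃ lab k v) := by
  classical
  have hfin : Fintype (lab k v) := Fintype.ofFinite _
  rw [← Fintype.card_eq, hB, ← Nat.card_eq_fintype_card, card_lab hk]

/-- translation of a block by a label -/
def trans {k : ℕ} {v : Fin k} (lb : B ≃ lab k v) (a : lab k v) : Equiv.Perm B :=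
  lb.trans ((Equiv.addRight a).trans lb.symm)

theorem trans_apply {k : ℕ} {v : Fin k} (lb : B ≃ lab k v) (a : lab k v) (b : B) :
    lb (trans lb a b) = lb b + a := by
  simp [trans]

theorem trans_pow {k : ℕ} {v : Fin k} (lb : B ≃ lab k v) (a : lab k v) (n : ℕ) (b : B) :
    lb ((trans lb a ^ n) b) = lb b + n • a := by
  induction n with
  | zero => simp
  | succ n ih =>
    rw [pow_succ', Equiv.Perm.mul_apply, trans_apply, ih, succ_nsmul]
    abel

theorem five_smul {k : ℕ} {v : Fin k} (a : lab k v) : 5 • a = 0 := by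
  apply Subtype.ext
  funext u
  show (5 • (a : Fin k → ZMod 5)) u = 0
  rw [Pi.smul_apply]
  generalize (a : Fin k → ZMod 5) u = z
  revert z
  decide

theorem trans_mem {k : ℕ} {v : Fin k} (lb : B ≃ lab k v) (a : lab k v) :
    trans lb a ∈ alternatingGroup B := by
  rw [Equiv.Perm.mem_alternatingGroup]
  have h1 : trans lb a ^ 5 = 1 := by
    ext b
    apply lb.injective
    rw [trans_pow, five_smul, add_zero]
    rfl
  have h2 : Equiv.Perm.sign (trans lb a) ^ 5 = 1 := by
    rw [← map_pow, h1, map_one]
  rcases Int.units_eq_one_or (Equiv.Perm.sign (trans lb a)) with h | h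
  · exact h
  · rw [h] at h2
    exact absurd h2 (by decide)

/-- The gadget relation of the blocks `τ 0, …, τ (k-1)` with twists `c`. -/
def Rel {k : ℕ} (ι : Fin r × B ↪ V) (τ : Fin k ↪ Fin r) (lb : ∀ v, B ≃ lab k v)
    (c : Fin k → Fin k → ZMod 5) (x y : V) : Prop :=
  ∃ u v b b', u ≠ v ∧ x = ι (τ u, b) ∧ y = ι (τ v, b') ∧
    (lb u b : Fin k → ZMod 5) v + (lb v b' : Fin k → ZMod 5) u = c u v + c v u

variable {k : ℕ} {ι : Fin r × B ↪ V} {τ : Fin k ↪ Fin r} {lb : ∀ v, B ≃ lab k v}

theorem Rel.symm {c : Fin k → Fin k → ZMod 5} {x y : V} (h : Rel ι τ lb c x y) :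
    Rel ι τ lb c y x := by
  obtain ⟨u, v, b, b', h1, h2, h3, h4⟩ := h
  exact ⟨v, u, b', b, h1.symm, h3, h2, by rw [add_comm, h4, add_comm]⟩

theorem Rel.ne {c : Fin k → Fin k → ZMod 5} {x y : V} (h : Rel ι τ lb c x y) : x ≠ y := by
  obtain ⟨u, v, b, b', h1, h2, h3, -⟩ := h
  rw [h2, h3]
  intro he
  have := ι.injective he
  simp only [Prod.mk.injEq] at this
  exact h1 (τ.injective this.1)

theorem rel_mk {c : Fin k → Fin k → ZMod 5} {u v : Fin k} {b b' : B} :
    Rel ι τ lb c (ι (τ u, b)) (ι (τ v, b')) ↔
      u ≠ v ∧ (lb u b : Fin k → ZMod 5) v + (lb v b' : Fin k → ZMod 5) u = c u v + c v u := by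
  constructor
  · rintro ⟨u', v', d, d', h1, h2, h3, h4⟩
    have e2 := ι.injective h2
    have e3 := ι.injective h3
    simp only [Prod.mk.injEq] at e2 e3
    obtain ⟨e2, rfl⟩ := e2
    obtain ⟨e3, rfl⟩ := e3
    have e2 := τ.injective e2
    have e3 := τ.injective e3
    subst e2 e3
    exact ⟨h1, h4⟩
  · rintro ⟨h1, h2⟩
    exact ⟨u, v, b, b', h1, rfl, rfl, h2⟩

/-- the element of the power of the alternating group translating the block `τ t` -/
def elt (τ : Fin k ↪ Fin r) (lb : ∀ v, B ≃ lab k v) (t : Fin k) (a : lab k t) :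
    Fin r → alternatingGroup B :=
  Pi.mulSingle (τ t) ⟨trans (lb t) a, trans_mem (lb t) a⟩

theorem elt_mem (t : Fin k) (a : lab k t) :
    elt τ lb t a ∈ fac (alternatingGroup B) (τ t) := ⟨_, rfl⟩

theorem act_elt_same (t : Fin k) (a : lab k t) (b : B) :
    actV ι (elt τ lb t a) (ι (τ t, b)) = ι (τ t, trans (lb t) a b) := by
  rw [actV_mk]
  unfold elt
  rw [Pi.mulSingle_eq_same]

theorem act_elt_ne (t : Fin k) (a : lab k t) {u : Fin k} (hu : u ≠ t) (b : B) :
    actV ι (elt τ lb t a) (ι (τ u, b)) = ι (τ u, b) := by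
  rw [actV_mk]
  unfold elt
  rw [Pi.mulSingle_eq_of_ne (fun h => hu (τ.injective h))]
  rfl

/-- translating the gadget of `t` changes the twists -/
theorem rel_act (c : Fin k → Fin k → ZMod 5) (t : Fin k) (a : lab k t) (x y : V) :
    Rel ι τ lb (Function.update c t (c t + a)) (actV ι (elt τ lb t a) x)
      (actV ι (elt τ lb t a) y) ↔ Rel ι τ lb c x y := by
  have hat : (a : Fin k → ZMod 5) t = 0 := a.2.1
  -- one direction for all parameters
  have key : ∀ (c : Fin k → Fin k → ZMod 5) (a : lab k t) (x y : V), Rel ι τ lb c x y →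
      Rel ι τ lb (Function.update c t (c t + a)) (actV ι (elt τ lb t a) x)
      (actV ι (elt τ lb t a) y) := by
    rintro c a x y ⟨u, v, b, b', h1, rfl, rfl, h4⟩
    by_cases hu : u = t
    · subst hu
      have hv : v ≠ u := h1.symm
      rw [act_elt_same, act_elt_ne _ _ hv, rel_mk]
      refine ⟨h1, ?_⟩
      rw [trans_apply, Function.update_self, Function.update_of_ne hv]
      show (lb u b : Fin k → ZMod 5) v + (a : Fin k → ZMod 5) v + _ = c u v + (a : Fin k → ZMod 5) v + _
      rw [add_right_comm, h4, add_right_comm]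
    · by_cases hv : v = t
      · subst hv
        rw [act_elt_same, act_elt_ne _ _ hu, rel_mk]
        refine ⟨h1, ?_⟩
        rw [trans_apply, Function.update_self, Function.update_of_ne hu]
        show _ + ((lb v b' : Fin k → ZMod 5) u + (a : Fin k → ZMod 5) u) =
          _ + (c v u + (a : Fin k → ZMod 5) u)
        rw [← add_assoc, h4, ← add_assoc]
      · rw [act_elt_ne _ _ hu, act_elt_ne _ _ hv, rel_mk]
        refine ⟨h1, ?_⟩
        rw [Function.update_of_ne hu, Function.update_of_ne hv]
        exact h4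
  constructor
  · intro h
    have h1 := key _ (-a) _ _ h
    have e1 : Function.update (Function.update c t (c t + a)) t
        ((Function.update c t (c t + a)) t + ((-a : lab k t) : Fin k → ZMod 5)) = c := by
      rw [Function.update_self, Function.update_idem]
      have : c t + (a : Fin k → ZMod 5) + ((-a : lab k t) : Fin k → ZMod 5) = c t := by
        rw [AddSubgroup.coe_neg, add_neg_cancel_right]
      rw [this, Function.update_eq_self]
    rw [e1] at h1
    have e2 : ∀ z, actV ι (elt τ lb t (-a)) (actV ι (elt τ lb t a) z) = z := by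
      intro z
      rw [← Equiv.Perm.mul_apply, ← map_mul]
      have : elt τ lb t (-a) * elt τ lb t a = 1 := by
        unfold elt
        rw [← Pi.mulSingle_mul]
        have h5 : (⟨trans (lb t) (-a), trans_mem (lb t) (-a)⟩ : alternatingGroup B) *
            ⟨trans (lb t) a, trans_mem (lb t) a⟩ = 1 := by
          apply Subtype.ext
          ext b
          apply (lb t).injective
          show (lb t) (trans (lb t) (-a) (trans (lb t) a b)) = _
          rw [trans_apply, trans_apply, add_neg_cancel_right]
          rfl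
        rw [h5, Pi.mulSingle_one]
      rw [this, map_one]
      rfl
    rwa [e2, e2] at h1
  · exact key c a x y

/-- twists equal away from `t` -/
def Away (t : Fin k) (c c' : Fin k → Fin k → ZMod 5) : Prop :=
  ∀ u v, u ≠ v → u ≠ t → v ≠ t → c u v + c v u = c' u v + c' v u

/-- if the relations differ at a pair, then the pair is moved by a translation of `t` -/
theorem rel_moved (hk : 3 ≤ k) {t : Fin k} {c c' : Fin k → Fin k → ZMod 5} (h : Away t c c') {x y : V}
    (hxy : Rel ι τ lb c x y) (hxy' : ¬ Rel ι τ lb c' x y) :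
    ∃ a : lab k t, (actV ι (elt τ lb t a) x ≠ x ∧ actV ι (elt τ lb t a) y = y) ∨
      (actV ι (elt τ lb t a) y ≠ y ∧ actV ι (elt τ lb t a) x = x) := by
  obtain ⟨a, ha⟩ : ∃ a : lab k t, a ≠ 0 := by
    have h1 := card_lab (show 2 ≤ k by omega) t
    have h2 : 1 < Nat.card (lab k t) := by
      rw [h1]
      exact Nat.one_lt_pow (by omega) (by norm_num)
    have : Nontrivial (lab k t) := Finite.one_lt_card_iff_nontrivial.1 h2
    exact exists_ne 0
  refine ⟨a, ?_⟩
  have hne : ∀ b, trans (lb t) a b ≠ b := by
    intro b hb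
    apply ha
    have := trans_apply (lb t) a b
    rw [hb] at this
    simpa using this.symm
  obtain ⟨u, v, b, b', h1, rfl, rfl, h4⟩ := hxy
  rw [rel_mk, not_and] at hxy'
  have h5 := hxy' h1
  by_cases hu : u = t
  · subst hu
    left
    rw [act_elt_same, act_elt_ne _ _ h1.symm]
    refine ⟨?_, rfl⟩
    intro he
    have := ι.injective he
    simp only [Prod.mk.injEq, true_and] at this
    exact hne b this
  · by_cases hv : v = t
    · subst hv
      right
      rw [act_elt_same, act_elt_ne _ _ h1]
      refine ⟨?_, rfl⟩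
      intro he
      have := ι.injective he
      simp only [Prod.mk.injEq, true_and] at this
      exact hne b' this
    · exfalso
      apply h5
      rw [h4]
      exact h u v h1 hu hv

/-- changing twists by a translation of `t` so that they agree away from `u` -/
theorem away_step {t u : Fin k} (htu : t ≠ u) {c c' : Fin k → Fin k → ZMod 5} (h : Away t c c') :
    ∃ a : lab k t, Away u (Function.update c t (c t + a)) c' := by
  classical
  let d : Fin k → ZMod 5 := fun w => if w = t ∨ w = u then 0 else (c' t w + c' w t) - (c t w + c w t)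
  let a : Fin k → ZMod 5 := d - Pi.single u (∑ w, d w)
  have ha : a ∈ lab k t := by
    rw [mem_lab]
    constructor
    · simp only [a, Pi.sub_apply, d, true_or, if_true, zero_sub, neg_eq_zero]
      exact Pi.single_eq_of_ne htu _
    · simp only [a, Pi.sub_apply, Finset.sum_sub_distrib]
      rw [Finset.sum_pi_single']
      simp
  refine ⟨⟨a, ha⟩, ?_⟩
  intro v w hvw hv hw
  have hav : ∀ w, w ≠ t → w ≠ u → a w = (c' t w + c' w t) - (c t w + c w t) := by
    intro w h1 h2
    simp only [a, Pi.sub_apply, d, Pi.single_eq_of_ne h2, sub_zero]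
    rw [if_neg]
    rintro (h3 | h3)
    · exact h1 h3
    · exact h2 h3
  by_cases hvt : v = t
  · subst hvt
    rw [Function.update_self, Function.update_of_ne hvw.symm]
    show c v w + a w + c w v = _
    rw [hav w hvw.symm hw]
    ring
  · by_cases hwt : w = t
    · subst hwt
      rw [Function.update_self, Function.update_of_ne hvw]
      show c v w + (c w v + a v) = _
      rw [hav v hvw hv]
      ring
    · rw [Function.update_of_ne hvt, Function.update_of_ne hwt]
      exact h v w hvw hvt hwt

/-- there are `k` pairwise related vertices for trivial twists -/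
theorem exists_clique (ι : Fin r × B ↪ V) (τ : Fin k ↪ Fin r) (lb : ∀ v, B ≃ lab k v) :
    ∃ f : Fin k ↪ V, ∀ u v, u ≠ v → Rel ι τ lb 0 (f u) (f v) := by
  refine ⟨⟨fun u => ι (τ u, (lb u).symm 0), ?_⟩, ?_⟩
  · intro u v h
    have := ι.injective h
    simp only [Prod.mk.injEq] at this
    exact τ.injective this.1
  · intro u v huv
    show Rel ι τ lb 0 (ι (τ u, (lb u).symm 0)) (ι (τ v, (lb v).symm 0))
    rw [rel_mk]
    refine ⟨huv, ?_⟩
    simp

/-- pairwise related vertices force the total twist to vanish -/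
theorem total_of_clique (hk : 2 ≤ k) {c : Fin k → Fin k → ZMod 5} (f : Fin k → V)
    (hf : ∀ u v, u ≠ v → Rel ι τ lb c (f u) (f v)) :
    ∑ u, ∑ v, (if u ≠ v then c u v else 0) = 0 := by
  classical
  have : Nontrivial (Fin k) := Fin.nontrivial_iff_two_le.2 hk
  -- each vertex lies in some gadget
  have h1 : ∀ u, ∃ s : Fin k, ∃ b : B, f u = ι (τ s, b) := by
    intro u
    obtain ⟨v, hv⟩ := exists_ne u
    obtain ⟨s, _, b, _, _, h2, _, _⟩ := hf u v hv.symm
    exact ⟨s, b, h2⟩
  choose s b hs using h1
  have hinj : Function.Injective s := by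
    intro u v h
    by_contra hne
    have h2 := hf u v hne
    rw [hs u, hs v, rel_mk] at h2
    exact h2.1 h
  have hbij : Function.Bijective s := Finite.injective_iff_bijective.1 hinj
  let e : Fin k ≃ Fin k := Equiv.ofBijective s hbij
  -- the labels, indexed by gadgets
  let g : Fin k → Fin k → ZMod 5 := fun w => (lb w (b (e.symm w)) : Fin k → ZMod 5)
  have hg1 : ∀ w, g w w = 0 := fun w => (lb w (b (e.symm w))).2.1
  have hg2 : ∀ w, ∑ u, g w u = 0 := fun w => (lb w (b (e.symm w))).2.2
  have hg3 : ∀ w w', w ≠ w' → g w w' + g w' w = c w w' + c w' w := by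
    intro w w' hne
    have h2 := hf (e.symm w) (e.symm w') (fun h => hne (e.symm.injective h))
    have e1 : f (e.symm w) = ι (τ w, b (e.symm w)) := by
      rw [hs]
      congr 3
      exact e.apply_symm_apply w
    have e2 : f (e.symm w') = ι (τ w', b (e.symm w')) := by
      rw [hs]
      congr 3
      exact e.apply_symm_apply w'
    rw [e1, e2, rel_mk] at h2
    exact h2.2
  have h5 : ∑ u, ∑ v, (if u ≠ v then (c u v + c v u) else 0) = 0 := by
    have h6 : ∀ u v, (if u ≠ v then (c u v + c v u) else 0) = g u v + g v u := by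
      intro u v
      by_cases h : u = v
      · subst h
        rw [if_neg (by simp), hg1, add_zero]
      · rw [if_pos h, hg3 u v h]
    simp only [h6, Finset.sum_add_distrib]
    rw [Finset.sum_comm (f := fun u v => g v u)]
    simp only [hg2, Finset.sum_const_zero, add_zero]
  have h7 : ∑ u, ∑ v, (if u ≠ v then (c u v + c v u) else 0) =
      ∑ u, ∑ v, (if u ≠ v then c u v else 0) + ∑ u, ∑ v, (if u ≠ v then c u v else 0) := by
    have h8 : ∀ u v, (if u ≠ v then (c u v + c v u) else 0) =
        (if u ≠ v then c u v else 0) + (if v ≠ u then c v u else 0) := by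
      intro u v
      by_cases h : u = v
      · subst h; simp
      · rw [if_pos h, if_pos h, if_pos (Ne.symm h)]
    simp only [h8, Finset.sum_add_distrib]
    rw [Finset.sum_comm (f := fun u v => if v ≠ u then c v u else 0)]
  rw [h5] at h7
  generalize (∑ u, ∑ v, (if u ≠ v then c u v else 0) : ZMod 5) = z at h7 ⊢
  revert z
  decide

end Pool.Agent.H526R2.LS
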