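import Pool.Agent.H526R2.LS.Exact

set_option autoImplicit false
set_option linter.unusedSectionVars false

/-! Lower bounds for locally symmetric networks for all-pairs shortest paths. -/

namespace Pool.Agent.H526R2.LS

open Finset

section dist

variable {V : Type*}

/-- the total weight of a walk, given by the list of its vertices -/
def walkWeight (W : V → V → ℕ∞) : List V → ℕ∞
  | [] => 0
  | [_] => 0
  | u :: v :: l => W u v + walkWeight W (v :: l)

/-- the distance from `u` to `v`: the least weight of a walk from `u` to `v` -/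
noncomputable def dist (W : V → V → ℕ∞) (u v : V) : ℕ∞ :=
  ⨅ l : {l : List V // l.head? = some u ∧ l.getLast? = some v}, walkWeight W l.1

theorem length_le_walk {W : V → V → ℕ∞} (hW : ∀ u v, 1 ≤ W u v) :
    ∀ l : List V, (l.length : ℕ∞) ≤ walkWeight W l + 1
  | [] => by simp
  | [_] => by simp [walkWeight]
  | u :: v :: l => by
    have h1 := length_le_walk hW (v :: l)
    rw [walkWeight, List.length_cons]
    push_cast
    calc ((v :: l).length : ℕ∞) + 1 ≤ (walkWeight W (v :: l) + 1) + 1 := by gcongr
      _ ≤ (W u v + walkWeight W (v :: l)) + 1 := by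
        rw [add_comm (walkWeight W (v :: l)) 1]
        gcongr
        exact hW u v

theorem dist_le {W : V → V → ℕ∞} {u v : V} (l : List V) (h1 : l.head? = some u)
    (h2 : l.getLast? = some v) : dist W u v ≤ walkWeight W l :=
  iInf_le (fun l : {l : List V // l.head? = some u ∧ l.getLast? = some v} => walkWeight W l.1)
    ⟨l, h1, h2⟩

theorem exists_walk {W : V → V → ℕ∞} {u v : V} :
    ∃ l : List V, l.head? = some u ∧ l.getLast? = some v ∧ walkWeight W l = dist W u v := by
  have hne : Nonempty {l : List V // l.head? = some u ∧ l.getLast? = some v} :=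
    ⟨⟨[u, v], rfl, rfl⟩⟩
  obtain ⟨l, hl⟩ := ciInf_mem (fun l : {l : List V // l.head? = some u ∧ l.getLast? = some v} =>
    walkWeight W l.1)
  exact ⟨l.1, l.2.1, l.2.2, hl⟩

/-- distance two between vertices which are not joined by an arc -/
theorem dist_eq_two {W : V → V → ℕ∞} (hW : ∀ u v, W u v = 1 ∨ W u v = ⊤) {u v : V} (huv : u ≠ v)
    (h : W u v = ⊤) : dist W u v = 2 ↔ ∃ m, W u m = 1 ∧ W m v = 1 := by
  have hW1 : ∀ u v, 1 ≤ W u v := by
    intro u v
    rcases hW u v with h | h <;> rw [h]
    exact le_top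
  constructor
  · intro hd
    obtain ⟨l, h1, h2, h3⟩ := exists_walk (W := W) (u := u) (v := v)
    rw [hd] at h3
    have h4 := length_le_walk hW1 l
    rw [h3] at h4
    have h5 : l.length ≤ 3 := by
      have h6 : ((l.length : ℕ) : ℕ∞) ≤ ((3 : ℕ) : ℕ∞) := by
        refine le_trans h4 ?_
        norm_num
      exact_mod_cast h6
    match l, h1, h2, h3, h5 with
    | [], h1, _, _, _ => simp at h1
    | [a], h1, h2, _, _ =>
      simp at h1 h2
      exact absurd (h1.symm.trans h2) huv
    | [a, b], h1, h2, h3, _ =>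
      simp at h1 h2
      subst h1 h2
      rw [walkWeight, h] at h3
      simp [walkWeight] at h3
    | [a, b, d], h1, h2, h3, _ =>
      simp at h1 h2
      subst h1 h2
      refine ⟨b, ?_⟩
      simp only [walkWeight, add_zero] at h3
      constructor
      · rcases hW a b with h6 | h6
        · exact h6
        · rw [h6] at h3; simp at h3
      · rcases hW b d with h6 | h6
        · exact h6
        · rw [h6] at h3; simp at h3
    | (a :: b :: d :: e :: l'), _, _, _, h5 =>
      simp only [List.length_cons] at h5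
      omega
  · rintro ⟨m, h1, h2⟩
    apply le_antisymm
    · refine le_trans (dist_le [u, m, v] rfl rfl) ?_
      simp only [walkWeight, h1, h2, add_zero]
      norm_num
    · obtain ⟨l, h3, h4, h5⟩ := exists_walk (W := W) (u := u) (v := v)
      rw [← h5]
      match l, h3, h4 with
      | [], h3, _ => simp at h3
      | [a], h3, h4 =>
        simp at h3 h4
        exact absurd (h3.symm.trans h4) huv
      | [a, b], h3, h4 =>
        simp at h3 h4
        subst h3 h4
        rw [walkWeight, h]
        simp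
      | (a :: b :: d :: l'), _, _ =>
        have h6 := length_le_walk hW1 (b :: d :: l')
        rw [walkWeight]
        have h7 : (2 : ℕ∞) ≤ walkWeight W (b :: d :: l') + 1 := by
          refine le_trans ?_ h6
          rw [List.length_cons, List.length_cons]
          push_cast
          have : (2 : ℕ∞) = 0 + 1 + 1 := by norm_num
          rw [this]
          gcongr
          exact bot_le
        refine le_trans h7 ?_
        rw [add_comm]
        gcongr
        exact hW1 a b

end dist

variable {V K B : Type*} [Fintype V] [Fintype B] [DecidableEq B] {r : ℕ}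

/-- The network outputs all distances correctly: the input gates reading the entry `(u, v)` of the
weight matrix have the value `enc (W u v)`, and the distances are read off the output gates by
`dec`. -/
def Net.APSPOK {Gt : Type*} [Fintype Gt] (N : Net (V × V) K (V × V) Gt) (enc : ℕ∞ → K)
    (dec : K → ℕ∞) (W : V → V → ℕ∞) : Prop :=
  ∀ u v, dec (N.val (fun e => enc (W e.1 e.2)) (N.out (u, v))) = dist W u v

theorem fin3_two : ∀ t : Fin 3, t ≠ 0 → t ≠ 1 → t = 2 := by decide

theorem fin3_zero : ∀ t : Fin 3, t ≠ 2 → t ≠ 1 → t = 0 := by decide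

/-- the arcs of the layered instance -/
def Arc (ι : Fin r × B ↪ V) (τ : Fin 3 ↪ Fin r) (lb : B ≃ ZMod 5) (c : ZMod 5 × ZMod 5)
    (x y : V) : Prop :=
  (∃ b b', x = ι (τ 0, b) ∧ y = ι (τ 1, b') ∧ lb b' = lb b + c.1) ∨
  (∃ b b', x = ι (τ 1, b) ∧ y = ι (τ 2, b') ∧ lb b' = lb b + c.2)

/-- rotation of a block -/
def rot (lb : B ≃ ZMod 5) (a : ZMod 5) : Equiv.Perm B :=
  lb.trans ((Equiv.addRight a).trans lb.symm)

theorem rot_apply (lb : B ≃ ZMod 5) (a : ZMod 5) (b : B) : lb (rot lb a b) = lb b + a := by
  simp [rot]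

theorem rot_pow (lb : B ≃ ZMod 5) (a : ZMod 5) (n : ℕ) (b : B) :
    lb ((rot lb a ^ n) b) = lb b + n • a := by
  induction n with
  | zero => simp
  | succ n ih =>
    rw [pow_succ', Equiv.Perm.mul_apply, rot_apply, ih, succ_nsmul]
    abel

theorem rot_mem (lb : B ≃ ZMod 5) (a : ZMod 5) : rot lb a ∈ alternatingGroup B := by
  rw [Equiv.Perm.mem_alternatingGroup]
  have h1 : rot lb a ^ 5 = 1 := by
    ext b
    apply lb.injective
    rw [rot_pow]
    have : 5 • a = 0 := by revert a; decide
    rw [this, add_zero]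
    rfl
  have h2 : Equiv.Perm.sign (rot lb a) ^ 5 = 1 := by
    rw [← map_pow, h1, map_one]
  rcases Int.units_eq_one_or (Equiv.Perm.sign (rot lb a)) with h | h
  · exact h
  · rw [h] at h2
    exact absurd h2 (by decide)

variable {ι : Fin r × B ↪ V} {τ : Fin 3 ↪ Fin r} {lb : B ≃ ZMod 5}

theorem arc01 {c : ZMod 5 × ZMod 5} {b b' : B} :
    Arc ι τ lb c (ι (τ 0, b)) (ι (τ 1, b')) ↔ lb b' = lb b + c.1 := by
  constructor
  · rintro (⟨d, d', h1, h2, h3⟩ | ⟨d, d', h1, h2, h3⟩)
    · have e1 := ι.injective h1
      have e2 := ι.injective h2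
      simp only [Prod.mk.injEq, true_and] at e1 e2
      rw [e1, e2]; exact h3
    · have e1 := ι.injective h1
      simp only [Prod.mk.injEq] at e1
      exact absurd (τ.injective e1.1) (by decide)
  · intro h
    exact Or.inl ⟨b, b', rfl, rfl, h⟩

theorem arc12 {c : ZMod 5 × ZMod 5} {b b' : B} :
    Arc ι τ lb c (ι (τ 1, b)) (ι (τ 2, b')) ↔ lb b' = lb b + c.2 := by
  constructor
  · rintro (⟨d, d', h1, h2, h3⟩ | ⟨d, d', h1, h2, h3⟩)
    · have e1 := ι.injective h1
      simp only [Prod.mk.injEq] at e1
      exact absurd (τ.injective e1.1) (by decide)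
    · have e1 := ι.injective h1
      have e2 := ι.injective h2
      simp only [Prod.mk.injEq, true_and] at e1 e2
      rw [e1, e2]; exact h3
  · intro h
    exact Or.inr ⟨b, b', rfl, rfl, h⟩

/-- the element rotating the block `τ t` -/
def relt (τ : Fin 3 ↪ Fin r) (lb : B ≃ ZMod 5) (t : Fin 3) (a : ZMod 5) :
    Fin r → alternatingGroup B :=
  Pi.mulSingle (τ t) ⟨rot lb a, rot_mem lb a⟩

theorem relt_mem (t : Fin 3) (a : ZMod 5) :
    relt τ lb t a ∈ fac (alternatingGroup B) (τ t) := ⟨_, rfl⟩

theorem act_relt_same (t : Fin 3) (a : ZMod 5) (b : B) :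
    actV ι (relt τ lb t a) (ι (τ t, b)) = ι (τ t, rot lb a b) := by
  rw [actV_mk]
  unfold relt
  rw [Pi.mulSingle_eq_same]

theorem act_relt_ne (t : Fin 3) (a : ZMod 5) {u : Fin 3} (hu : u ≠ t) (b : B) :
    actV ι (relt τ lb t a) (ι (τ u, b)) = ι (τ u, b) := by
  rw [actV_mk]
  unfold relt
  rw [Pi.mulSingle_eq_of_ne (fun h => hu (τ.injective h))]
  rfl

/-- effect of rotations on the configuration -/
def shift (t : Fin 3) (a : ZMod 5) (c : ZMod 5 × ZMod 5) : ZMod 5 × ZMod 5 :=
  if t = 0 then (c.1 - a, c.2) else if t = 1 then (c.1 + a, c.2 - a) else (c.1, c.2 + a)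

theorem arc_act (c : ZMod 5 × ZMod 5) (t : Fin 3) (a : ZMod 5) (x y : V) :
    Arc ι τ lb (shift t a c) (actV ι (relt τ lb t a) x) (actV ι (relt τ lb t a) y) ↔
      Arc ι τ lb c x y := by
  have key : ∀ (c : ZMod 5 × ZMod 5) (a : ZMod 5) (x y : V), Arc ι τ lb c x y →
      Arc ι τ lb (shift t a c) (actV ι (relt τ lb t a) x) (actV ι (relt τ lb t a) y) := by
    rintro c a x y (⟨b, b', rfl, rfl, h⟩ | ⟨b, b', rfl, rfl, h⟩)
    · fin_cases t
      · show Arc ι τ lb (shift 0 a c) (actV ι (relt τ lb 0 a) (ι (τ 0, b)))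
          (actV ι (relt τ lb 0 a) (ι (τ 1, b')))
        rw [act_relt_same, act_relt_ne _ _ (by decide), arc01, rot_apply, h]
        simp [shift]
      · show Arc ι τ lb (shift 1 a c) (actV ι (relt τ lb 1 a) (ι (τ 0, b)))
          (actV ι (relt τ lb 1 a) (ι (τ 1, b')))
        rw [act_relt_same, act_relt_ne _ _ (by decide), arc01, rot_apply, h]
        simp only [shift, one_ne_zero, if_false, if_true]
        ring
      · show Arc ι τ lb (shift 2 a c) (actV ι (relt τ lb 2 a) (ι (τ 0, b)))
          (actV ι (relt τ lb 2 a) (ι (τ 1, b')))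
        rw [act_relt_ne _ _ (by decide), act_relt_ne _ _ (by decide), arc01, h]
        simp [shift]
    · fin_cases t
      · show Arc ι τ lb (shift 0 a c) (actV ι (relt τ lb 0 a) (ι (τ 1, b)))
          (actV ι (relt τ lb 0 a) (ι (τ 2, b')))
        rw [act_relt_ne _ _ (by decide), act_relt_ne _ _ (by decide), arc12, h]
        simp [shift]
      · show Arc ι τ lb (shift 1 a c) (actV ι (relt τ lb 1 a) (ι (τ 1, b)))
          (actV ι (relt τ lb 1 a) (ι (τ 2, b')))
        rw [act_relt_same, act_relt_ne _ _ (by decide), arc12, rot_apply, h]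
        simp only [shift, one_ne_zero, if_false, if_true]
        ring
      · show Arc ι τ lb (shift 2 a c) (actV ι (relt τ lb 2 a) (ι (τ 1, b)))
          (actV ι (relt τ lb 2 a) (ι (τ 2, b')))
        rw [act_relt_same, act_relt_ne _ _ (by decide), arc12, rot_apply, h]
        simp only [shift, show (2 : Fin 3) ≠ 0 by decide, show (2 : Fin 3) ≠ 1 by decide, if_false]
        ring
  constructor
  · intro h
    have h1 := key _ (-a) _ _ h
    have e1 : shift t (-a) (shift t a c) = c := by
      unfold shift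
      fin_cases t
      · simp
      · simp
      · simp
    rw [e1] at h1
    have e2 : ∀ z, actV ι (relt τ lb t (-a)) (actV ι (relt τ lb t a) z) = z := by
      intro z
      rw [← Equiv.Perm.mul_apply, ← map_mul]
      have : relt τ lb t (-a) * relt τ lb t a = 1 := by
        unfold relt
        rw [← Pi.mulSingle_mul]
        have h5 : (⟨rot lb (-a), rot_mem lb (-a)⟩ : alternatingGroup B) *
            ⟨rot lb a, rot_mem lb a⟩ = 1 := by
          apply Subtype.ext
          ext b
          apply lb.injective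
          show lb (rot lb (-a) (rot lb a b)) = _
          rw [rot_apply, rot_apply, add_neg_cancel_right]
          rfl
        rw [h5, Pi.mulSingle_one]
      rw [this, map_one]
      rfl
    rwa [e2, e2] at h1
  · exact key c a x y

/-- the relation between configurations which are not distinguished by gates fixed by `τ t` -/
def Same (t : Fin 3) (c c' : ZMod 5 × ZMod 5) : Prop :=
  (t = 0 → c.2 = c'.2) ∧ (t = 2 → c.1 = c'.1)

open Classical in
/-- the weights of the layered instance -/
noncomputable def wt (ι : Fin r × B ↪ V) (τ : Fin 3 ↪ Fin r) (lb : B ≃ ZMod 5)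
    (c : ZMod 5 × ZMod 5) (x y : V) : ℕ∞ := if Arc ι τ lb c x y then 1 else ⊤

theorem rot_ne (b : B) : rot lb 1 b ≠ b := by
  intro h
  have := rot_apply lb 1 b
  rw [h] at this
  have h2 : (1 : ZMod 5) = 0 := by
    have h3 : lb b + 0 = lb b + 1 := by rw [add_zero]; exact this
    exact (add_left_cancel h3).symm
  exact absurd h2 (by decide)

/-- if the arcs differ at a pair, then the pair is moved by a rotation of `τ t` -/
theorem arc_moved {t : Fin 3} {c c' : ZMod 5 × ZMod 5} (h : Same t c c') {x y : V}
    (hxy : Arc ι τ lb c x y) (hxy' : ¬ Arc ι τ lb c' x y) :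
    (actV ι (relt τ lb t 1) x, actV ι (relt τ lb t 1) y) ≠ (x, y) := by
  intro he
  rw [Prod.mk.injEq] at he
  have hmv : ∀ b, actV ι (relt τ lb t 1) (ι (τ t, b)) ≠ ι (τ t, b) := by
    intro b hb
    rw [act_relt_same] at hb
    have := ι.injective hb
    simp only [Prod.mk.injEq, true_and] at this
    exact rot_ne b this
  rcases hxy with ⟨b, b', rfl, rfl, h1⟩ | ⟨b, b', rfl, rfl, h1⟩
  · rw [arc01] at hxy'
    by_cases h0 : t = 0
    · subst h0; exact hmv b he.1
    · by_cases h1' : t = 1
      · subst h1'; exact hmv b' he.2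
      · have h2 : t = 2 := fin3_two t h0 h1'
        rw [← h.2 h2] at hxy'
        exact hxy' h1
  · rw [arc12] at hxy'
    by_cases h0 : t = 2
    · subst h0; exact hmv b' he.2
    · by_cases h1' : t = 1
      · subst h1'; exact hmv b he.1
      · have h2 : t = 0 := fin3_zero t h0 h1'
        rw [← h.1 h2] at hxy'
        exact hxy' h1

theorem same_step {t u : Fin 3} (htu : t ≠ u) {c c' : ZMod 5 × ZMod 5} (h : Same t c c') :
    ∃ a, Same u (shift t a c) c' := by
  obtain ⟨s, s2⟩ := c
  obtain ⟨s', s2'⟩ := c'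
  by_cases hu : u = 0
  · -- match the second coordinate
    subst hu
    by_cases h1 : t = 1
    · subst h1
      refine ⟨s2 - s2', ?_, ?_⟩
      · intro _
        simp [shift]
      · intro h; exact absurd h (by decide)
    · have h2 : t = 2 := fin3_two t htu h1
      subst h2
      refine ⟨s2' - s2, ?_, ?_⟩
      · intro _
        simp [shift]
      · intro h; exact absurd h (by decide)
  · by_cases hu2 : u = 2
    · subst hu2
      by_cases h1 : t = 1
      · subst h1
        refine ⟨s' - s, ?_, ?_⟩
        · intro h; exact absurd h (by decide)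
        · intro _
          simp [shift]
      · have h2 : t = 0 := fin3_zero t htu h1
        subst h2
        refine ⟨s - s', ?_, ?_⟩
        · intro h; exact absurd h (by decide)
        · intro _
          simp [shift]
    · exact ⟨0, fun h => absurd h hu, fun h => absurd h hu2⟩

open Classical in
theorem apsp_lower (hB : Fintype.card B = 5)
    (enc : ℕ∞ → K) (dec : K → ℕ∞) (ι : Fin r × B ↪ V) {Ω : Type*} [Fintype Ω]
    (p : Ω → ℝ) (hp : ∀ ω, 0 ≤ p ω) (hp1 : ∑ ω, p ω = 1) (Gt : Ω → Type*)
    [∀ ω, Fintype (Gt ω)] (N : ∀ ω, Net (V × V) K (V × V) (Gt ω))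
    (hsym : ∀ ω, (N ω).SymBlocksP pairPerm ι) (ε : ℝ) (hε : 2 * ε ≤ 1)
    (herr : ∀ W : V → V → ℕ∞, (∀ u v, W u v = 1 ∨ W u v = ⊤) →
      ∑ ω with ¬ (N ω).APSPOK enc dec W, p ω ≤ ε) :
    (1 - 2 * ε) * ((r + 1 - 3 : ℕ) : ℝ) ^ 3 ≤ ∑ ω, p ω * ((Fintype.card (Gt ω) : ℝ) *
      ((2 * Nat.log 5 (Fintype.card (Gt ω)) + 1 : ℕ) : ℝ) ^ 3) := by
  apply choose_to_pow p hp (fun ω => Fintype.card (Gt ω))
    (fun ω => 2 * Nat.log 5 (Fintype.card (Gt ω)) + 1) 3 r _ (by linarith)
  have hB5 : 5 ≤ Fintype.card B := by omega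
  have hS : ∀ ω, (N ω).SymAll ((pairHom V).comp (actV ι)) ((pairHom V).comp (actV ι)) := by
    intro ω j a
    obtain ⟨φ, hφ⟩ := hsym ω j a a.2
    refine ⟨φ, ?_⟩
    rw [MonoidHom.comp_apply, actV_single]
    exact hφ
  have hlbB : Nonempty (B ≃ ZMod 5) := by
    rw [← Fintype.card_eq, hB]
    rfl
  obtain ⟨lb⟩ := hlbB
  refine le_trans (random_cover (X := {W : V → V → ℕ∞ // ∀ u v, W u v = 1 ∨ W u v = ⊤}) p hp hp1
    (fun ω x => ¬ (N ω).APSPOK enc dec x.1)
    ε (fun G => by convert herr G.1 G.2) r 3
    (fun ω => (N ω).covered ((pairHom V).comp (actV ι)) ((pairHom V).comp (actV ι)) 3) ?_) ?_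
  · intro A hA
    obtain ⟨τ, hτ⟩ := exists_enum hA
    have hval : ∀ c, ∀ u v, wt ι τ lb c u v = 1 ∨ wt ι τ lb c u v = ⊤ := by
      intro c u v
      unfold wt
      by_cases h : Arc ι τ lb c u v
      · rw [if_pos h]; exact Or.inl rfl
      · rw [if_neg h]; exact Or.inr rfl
    refine ⟨⟨wt ι τ lb (0, 0), hval _⟩, ⟨wt ι τ lb (0, 1), hval _⟩, ?_⟩
    intro ω hω
    let X : ZMod 5 × ZMod 5 → V × V → K := fun c e => enc (wt ι τ lb c e.1 e.2)
    have h1 := (N ω).core ((pairHom V).comp (actV ι)) ((pairHom V).comp (actV ι))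
      (fun t : Fin 3 => fac (alternatingGroup B) (τ t)) (fun t => inferInstance) X Same (by
        rintro t ⟨x, y⟩ c c' hc he
        show enc (wt ι τ lb c x y) = enc (wt ι τ lb c' x y)
        have h4 := he _ (relt_mem (τ := τ) (lb := lb) t 1)
        have h5 : ((actV ι (relt τ lb t 1) x, actV ι (relt τ lb t 1) y) : V × V) = (x, y) := h4
        have hc' : Same t c' c := ⟨fun h => (hc.1 h).symm, fun h => (hc.2 h).symm⟩
        have hiff : Arc ι τ lb c x y ↔ Arc ι τ lb c' x y := by
          constructor
          · intro h2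
            by_contra h3
            exact arc_moved hc h2 h3 h5
          · intro h2
            by_contra h3
            exact arc_moved hc' h2 h3 h5
        unfold wt
        simp only [hiff]) (by
        intro t u htu c c' h
        obtain ⟨a, ha⟩ := same_step htu h
        refine ⟨relt τ lb t a, relt_mem t a, shift t a c, ?_, ha⟩
        rintro ⟨x, y⟩
        show enc (wt ι τ lb (shift t a c) (actV ι (relt τ lb t a) x) (actV ι (relt τ lb t a) y)) =
          enc (wt ι τ lb c x y)
        unfold wt
        simp only [arc_act c t a x y])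
      (fun g => not_covered hA hω τ hτ g)
    -- the distinguished output
    let u : V := ι (τ 0, lb.symm 0)
    let v : V := ι (τ 2, lb.symm 0)
    have huv : u ≠ v := by
      intro h
      have := ι.injective h
      simp only [Prod.mk.injEq] at this
      exact absurd (τ.injective this.1) (by decide)
    have hfix : (N ω).Fixed ((pairHom V).comp (actV ι)) ((pairHom V).comp (actV ι))
        (fac (alternatingGroup B) (τ 1)) ((N ω).out (u, v)) := by
      apply fixed_out (hS ω)
      rintro γ ⟨a, rfl⟩
      show ((actV ι (Pi.mulSingle (τ 1) a) u, actV ι (Pi.mulSingle (τ 1) a) v) : V × V) = (u, v)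
      have h2 : ∀ s : Fin 3, s ≠ 1 → ∀ b, actV ι (Pi.mulSingle (τ 1) a) (ι (τ s, b)) = ι (τ s, b) := by
        intro s hs b
        rw [actV_mk, Pi.mulSingle_eq_of_ne (fun h => hs (τ.injective h))]
        rfl
      rw [h2 0 (by decide), h2 2 (by decide)]
    have h2 := h1 _ 1 hfix (0, 0) (0, 1) ⟨fun h => absurd h (by decide), fun h => absurd h (by decide)⟩
    by_contra hcon
    push Not at hcon
    obtain ⟨h3, h4⟩ := hcon
    have h5 := h3 u v
    have h6 := h4 u v
    have h7 : dist (wt ι τ lb (0, 0)) u v = dist (wt ι τ lb (0, 1)) u v := by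
      rw [← h5, ← h6]
      exact congrArg dec h2
    have htop : ∀ c, wt ι τ lb c u v = ⊤ := by
      intro c
      unfold wt
      rw [if_neg]
      rintro (⟨d, d', e1, e2, -⟩ | ⟨d, d', e1, e2, -⟩)
      · have := ι.injective e2
        simp only [Prod.mk.injEq] at this
        exact absurd (τ.injective this.1) (by decide)
      · have := ι.injective e1
        simp only [Prod.mk.injEq] at this
        exact absurd (τ.injective this.1) (by decide)
    have hone : ∀ c x y, wt ι τ lb c x y = 1 ↔ Arc ι τ lb c x y := by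
      intro c x y
      unfold wt
      by_cases h : Arc ι τ lb c x y
      · rw [if_pos h]; simp [h]
      · rw [if_neg h]; simp [h]
    have h8 : dist (wt ι τ lb (0, 0)) u v = 2 := by
      rw [dist_eq_two (hval _) huv (htop _)]
      refine ⟨ι (τ 1, lb.symm 0), ?_, ?_⟩
      · rw [hone, arc01]
        simp
      · rw [hone, arc12]
        simp
    rw [h7, dist_eq_two (hval _) huv (htop _)] at h8
    obtain ⟨m, h9, h10⟩ := h8
    rw [hone] at h9 h10
    rcases h9 with ⟨d, d', e1, e2, e3⟩ | ⟨d, d', e1, e2, e3⟩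
    · subst e2
      rw [arc12] at h10
      have e4 := ι.injective e1
      simp only [Prod.mk.injEq, true_and] at e4
      rw [e3, ← e4] at h10
      simp at h10
      exact absurd h10 (by decide)
    · have := ι.injective e1
      simp only [Prod.mk.injEq] at this
      exact absurd (τ.injective this.1) (by decide)
  · apply Finset.sum_le_sum
    intro ω _
    apply mul_le_mul_of_nonneg_left _ (hp ω)
    exact_mod_cast (hS ω).card_covered (alt_index hB5) (alt_perfect hB5) 3

end Pool.Agent.H526R2.LS
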