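import Pool.Agent.H526R2.LS.Act

set_option autoImplicit false
set_option linter.unusedSectionVars false

/-! Lower bounds for locally symmetric networks detecting cliques. -/

namespace Pool.Agent.H526R2.LS

open Finset

section general

variable {I K O Gt V B : Type*} [Fintype Gt] [Fintype B] [DecidableEq B] {r k : ℕ}

/-- a gate fixed by the block `τ t` does not see a change of the twists at `t` -/
theorem Net.pair (N : Net I K O Gt) {P : (Fin r → alternatingGroup B) →* Equiv.Perm I}
    {Q : (Fin r → alternatingGroup B) →* Equiv.Perm O}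
    (τ : Fin k ↪ Fin r) (lb : ∀ v, B ≃ lab k v)
    (x : (Fin k → Fin k → ZMod 5) → I → K)
    (hx1 : ∀ c t (a : lab k t) i, x (Function.update c t (c t + a)) (P (elt τ lb t a) i) = x c i)
    (hx2 : ∀ t i c c', Away t c c' → (∀ a : lab k t, P (elt τ lb t a) i = i) → x c i = x c' i)
    (h1 : ∀ g, ∃ t, N.Fixed P Q (fac (alternatingGroup B) (τ t)) g)
    (t : Fin k) (g : Gt) (hg : N.Fixed P Q (fac (alternatingGroup B) (τ t)) g)
    (c c' : Fin k → Fin k → ZMod 5) (hc : Away t c c') :
    N.val (x c) g = N.val (x c') g := by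
  refine N.core P Q (fun t : Fin k => fac (alternatingGroup B) (τ t)) (fun t => inferInstance) x
    Away ?_ ?_ h1 g t hg c c' hc
  · intro t i c c' h h'
    exact hx2 t i c c' h (fun a => h' _ (elt_mem t a))
  · intro t u htu c c' h
    obtain ⟨a, ha⟩ := away_step htu h
    exact ⟨_, elt_mem t a, _, fun i => hx1 c t a i, ha⟩

/-- the twist with a single nonzero entry -/
def one (t w : Fin k) : Fin k → Fin k → ZMod 5 := fun u v => if u = t ∧ v = w then 1 else 0

theorem away_one (t w : Fin k) : Away t 0 (one t w) := by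
  intro u v _ hu hv
  have h1 : one t w u v = 0 := by
    unfold one; rw [if_neg (fun h => hu h.1)]
  have h2 : one t w v u = 0 := by
    unfold one; rw [if_neg (fun h => hv h.1)]
  rw [h1, h2]
  rfl

theorem total_one {t w : Fin k} (h : t ≠ w) :
    ∑ u, ∑ v, (if u ≠ v then one t w u v else 0) = 1 := by
  classical
  rw [Finset.sum_eq_single t, Finset.sum_eq_single w]
  · rw [if_pos h]
    unfold one
    rw [if_pos ⟨rfl, rfl⟩]
  · intro v _ hv
    have h1 : one t w t v = 0 := by
      unfold one
      rw [if_neg (fun h => hv h.2)]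
    rw [h1, ite_self]
  · intro h; exact absurd (Finset.mem_univ _) h
  · intro u _ hu
    apply Finset.sum_eq_zero
    intro v _
    have h1 : one t w u v = 0 := by
      unfold one
      rw [if_neg (fun h => hu h.1)]
    rw [h1, ite_self]
  · intro h; exact absurd (Finset.mem_univ _) h

/-- a set of `k` blocks which is not covered -/
theorem not_covered {N : Net I K O Gt} {P : (Fin r → alternatingGroup B) →* Equiv.Perm I}
    {Q : (Fin r → alternatingGroup B) →* Equiv.Perm O} {A : Finset (Fin r)}
    (hA : A ∈ Finset.powersetCard k (Finset.univ : Finset (Fin r)))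
    (h : A ∉ N.covered P Q k) (τ : Fin k ↪ Fin r) (hτ : ∀ j ∈ A, ∃ t, τ t = j) (g : Gt) :
    ∃ t, N.Fixed P Q (fac (alternatingGroup B) (τ t)) g := by
  classical
  unfold Net.covered at h
  rw [Finset.mem_filter, not_and] at h
  have h1 := h hA
  push Not at h1
  have h2 := h1 g
  rw [Finset.not_subset] at h2
  obtain ⟨j, hj, hj2⟩ := h2
  unfold Net.moved at hj2
  rw [Finset.mem_filter, not_and, not_not] at hj2
  obtain ⟨t, rfl⟩ := hτ j hj
  exact ⟨t, hj2 (Finset.mem_univ _)⟩

/-- enumeration of a set of `k` blocks -/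
theorem exists_enum {A : Finset (Fin r)}
    (hA : A ∈ Finset.powersetCard k (Finset.univ : Finset (Fin r))) :
    ∃ τ : Fin k ↪ Fin r, ∀ j ∈ A, ∃ t, τ t = j := by
  rw [Finset.mem_powersetCard] at hA
  refine ⟨(A.orderEmbOfFin hA.2).toEmbedding, ?_⟩
  intro j hj
  have h1 : j ∈ Set.range (A.orderEmbOfFin hA.2) := by
    rw [Finset.range_orderEmbOfFin]
    exact hj
  exact h1

omit [Fintype Gt] in
/-- an output fixed by all symmetries -/
theorem fixed_out {N : Net I K O Gt} {P : (Fin r → alternatingGroup B) →* Equiv.Perm I}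
    {Q : (Fin r → alternatingGroup B) →* Equiv.Perm O} (h : N.SymAll P Q)
    (H : Subgroup (Fin r → alternatingGroup B)) (o : O) (ho : ∀ γ ∈ H, Q γ o = o) :
    N.Fixed P Q H (N.out o) := by
  intro γ hγ
  obtain ⟨φ, hφ⟩ := h.all γ
  exact ⟨φ, hφ, by rw [hφ.out, ho γ hγ]⟩

end general

section clique

variable {V K B : Type*} [Fintype B] [DecidableEq B] {r k : ℕ}

/-- the gadget graph -/
def gad (ι : Fin r × B ↪ V) (τ : Fin k ↪ Fin r) (lb : ∀ v, B ≃ lab k v)
    (c : Fin k → Fin k → ZMod 5) : SimpleGraph V where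
  Adj := Rel ι τ lb c
  symm := ⟨fun _ _ h => h.symm⟩
  loopless := ⟨fun _ h => h.ne rfl⟩

open Classical in
/-- The input of a network which reads a graph: the variable of the pair `e` has the value
`enc true` if `e` is an edge and `enc false` otherwise. -/
noncomputable def graphInput (enc : Bool → K) (G : SimpleGraph V) : Sym2 V → K :=
  fun e => enc (decide (e ∈ G.edgeSet))

open Classical in
/-- The network answers correctly whether the graph contains a clique with `k` vertices. -/
def Net.CliqueOK {Gt : Type*} [Fintype Gt] (N : Net (Sym2 V) K Unit Gt) (enc : Bool → K)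
    (dec : K → Bool) (k : ℕ) (G : SimpleGraph V) : Prop :=
  dec (N.val (graphInput enc G) (N.out ())) = decide (¬ G.CliqueFree k)

/-- Every even permutation of every block extends to an automorphism of the network. -/
def Net.SymBlocks {Gt : Type*} (N : Net (Sym2 V) K Unit Gt) (ι : Fin r × B ↪ V) : Prop :=
  ∀ (j : Fin r) (σ : Equiv.Perm B), σ ∈ alternatingGroup B →
    ∃ φ, N.IsAut (sym2Perm (blockPerm ι j σ)) 1 φ

theorem not_cliqueFree_zero (hB : ∀ v, Nonempty (B ≃ lab k v)) (ι : Fin r × B ↪ V)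
    (τ : Fin k ↪ Fin r) (lb : ∀ v, B ≃ lab k v) : ¬ (gad ι τ lb 0).CliqueFree k := by
  rw [SimpleGraph.not_cliqueFree_iff_top_isContained]
  obtain ⟨f, hf⟩ := exists_clique ι τ lb
  refine ⟨⟨⟨f, ?_⟩, f.injective⟩⟩
  intro u v h
  rw [SimpleGraph.top_adj] at h
  exact hf u v h

theorem cliqueFree_one (hk : 2 ≤ k) (ι : Fin r × B ↪ V)
    (τ : Fin k ↪ Fin r) (lb : ∀ v, B ≃ lab k v) {t w : Fin k} (h : t ≠ w) :
    (gad ι τ lb (one t w)).CliqueFree k := by
  by_contra hcon
  rw [SimpleGraph.not_cliqueFree_iff_top_isContained] at hcon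
  obtain ⟨f⟩ := hcon
  have h1 := total_of_clique hk (c := one t w) (ι := ι) (τ := τ) (lb := lb) (fun u => f u) (by
    intro u v huv
    exact f.toHom.map_rel huv)
  rw [total_one h] at h1
  exact absurd h1 (by decide)

open Classical in
theorem clique_cover [Fintype V] (hk : 3 ≤ k) (hB : Fintype.card B = 5 ^ (k - 2))
    (enc : Bool → K) (dec : K → Bool) (ι : Fin r × B ↪ V) {Ω : Type*} (Gt : Ω → Type*)
    [∀ ω, Fintype (Gt ω)] (N : ∀ ω, Net (Sym2 V) K Unit (Gt ω))
    (hsym : ∀ ω, (N ω).SymBlocks ι) (A : Finset (Fin r))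
    (hA : A ∈ Finset.powersetCard k (Finset.univ : Finset (Fin r))) :
    ∃ x x' : SimpleGraph V, ∀ ω, A ∉ (N ω).covered ((sym2Hom V).comp (actV ι)) 1 k →
      ¬ (N ω).CliqueOK enc dec k x ∨ ¬ (N ω).CliqueOK enc dec k x' := by
  obtain ⟨τ, hτ⟩ := exists_enum hA
  have hlab := fun v => exists_lab (B := B) (show 2 ≤ k by omega) hB v
  let lb : ∀ v, B ≃ lab k v := fun v => (hlab v).some
  let t : Fin k := ⟨0, by omega⟩
  let w : Fin k := ⟨1, by omega⟩
  have htw : t ≠ w := by
    intro h
    have := congrArg Fin.val h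
    simp [t, w] at this
  refine ⟨gad ι τ lb 0, gad ι τ lb (one t w), ?_⟩
  intro ω hω
  have hS : (N ω).SymAll ((sym2Hom V).comp (actV ι)) 1 := by
    intro j a
    obtain ⟨φ, hφ⟩ := hsym ω j a a.2
    refine ⟨φ, ?_⟩
    rw [MonoidHom.comp_apply, actV_single]
    exact hφ
  have h1 := (N ω).pair (P := (sym2Hom V).comp (actV ι)) (Q := 1) τ lb
    (fun c => graphInput enc (gad ι τ lb c)) (by
      intro c t a e
      unfold graphInput
      congr 1
      rw [decide_eq_decide]
      induction e with
      | h x y => exact rel_act c t a x y) (by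
      intro t e c c' hc he
      unfold graphInput
      congr 1
      rw [decide_eq_decide]
      induction e with
      | h x y =>
        have hno : ∀ c c', Away t c c' → Rel ι τ lb c x y → ¬ Rel ι τ lb c' x y → False := by
          intro c c' hc h2 h3
          obtain ⟨a, ha⟩ := rel_moved hk hc h2 h3
          have h4 := he a
          have h5 : (s(actV ι (elt τ lb t a) x, actV ι (elt τ lb t a) y) : Sym2 V) = s(x, y) := h4
          rw [Sym2.eq_iff] at h5
          rcases ha with ⟨h6, h7⟩ | ⟨h6, h7⟩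
          · rcases h5 with h5 | h5
            · exact h6 h5.1
            · exact h2.ne (h5.2.symm.trans h7)
          · rcases h5 with h5 | h5
            · exact h6 h5.2
            · exact h2.ne (h7.symm.trans h5.1)
        have hc' : Away t c' c := fun u v h6 h7 h8 => (hc u v h6 h7 h8).symm
        constructor
        · intro h2
          by_contra h3
          exact hno c c' hc h2 h3
        · intro h2
          by_contra h3
          exact hno c' c hc' h2 h3)
    (fun g => not_covered hA hω τ hτ g) t ((N ω).out ())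
    (fixed_out hS _ () (fun γ _ => rfl)) 0 (one t w) (away_one t w)
  by_contra hcon
  push Not at hcon
  obtain ⟨h2, h3⟩ := hcon
  unfold Net.CliqueOK at h2 h3
  rw [show graphInput enc (gad ι τ lb 0) = (fun c => graphInput enc (gad ι τ lb c)) 0 from rfl,
    h1] at h2
  rw [show graphInput enc (gad ι τ lb (one t w)) =
    (fun c => graphInput enc (gad ι τ lb c)) (one t w) from rfl, h2] at h3
  have h4 := not_cliqueFree_zero hlab ι τ lb
  have h5 := cliqueFree_one (show 2 ≤ k by omega) ι τ lb htw
  simp [h4, h5] at h3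

open Classical in
/-- **Main theorem for cliques.** -/
theorem clique_lower [Fintype V] (hk : 3 ≤ k) (hB : Fintype.card B = 5 ^ (k - 2))
    (enc : Bool → K) (dec : K → Bool) (ι : Fin r × B ↪ V) {Ω : Type*} [Fintype Ω]
    (p : Ω → ℝ) (hp : ∀ ω, 0 ≤ p ω) (hp1 : ∑ ω, p ω = 1) (Gt : Ω → Type*)
    [∀ ω, Fintype (Gt ω)] (N : ∀ ω, Net (Sym2 V) K Unit (Gt ω))
    (hsym : ∀ ω, (N ω).SymBlocks ι) (ε : ℝ)
    (herr : ∀ G : SimpleGraph V, ∑ ω with ¬ (N ω).CliqueOK enc dec k G, p ω ≤ ε) :
    (1 - 2 * ε) * (r.choose k) ≤ ∑ ω, p ω * ((Fintype.card (Gt ω) *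
      (2 * Nat.log 5 (Fintype.card (Gt ω)) + 1).choose k : ℕ) : ℝ) := by
  have hB5 : 5 ≤ Fintype.card B := by
    rw [hB]
    calc 5 = 5 ^ 1 := by norm_num
      _ ≤ 5 ^ (k - 2) := Nat.pow_le_pow_right (by norm_num) (by omega)
  refine le_trans (random_cover p hp hp1 (fun ω (G : SimpleGraph V) => ¬ (N ω).CliqueOK enc dec k G)
    ε (fun G => by convert herr G) r k (fun ω => (N ω).covered ((sym2Hom V).comp (actV ι)) 1 k) ?_) ?_
  · intro A hA
    exact clique_cover hk hB enc dec ι Gt N hsym A hA
  · apply Finset.sum_le_sum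
    intro ω _
    apply mul_le_mul_of_nonneg_left _ (hp ω)
    have hS : (N ω).SymAll ((sym2Hom V).comp (actV ι)) 1 := by
      intro j a
      obtain ⟨φ, hφ⟩ := hsym ω j a a.2
      refine ⟨φ, ?_⟩
      rw [MonoidHom.comp_apply, actV_single]
      exact hφ
    exact_mod_cast hS.card_covered (alt_index hB5) (alt_perfect hB5) k

end clique

end Pool.Agent.H526R2.LS
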