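import Pool.Agent.H526R2.LS.Supp

set_option autoImplicit false

/-! Arithmetic of the size bound. -/

namespace Pool.Agent.H526R2.LS

open Finset

/-- from binomial coefficients to powers -/
theorem choose_to_pow {Ω : Type*} [Fintype Ω] (p : Ω → ℝ) (hp : ∀ ω, 0 ≤ p ω) (s L : Ω → ℕ)
    (k r : ℕ) (δ : ℝ) (hδ : 0 ≤ δ)
    (h : δ * (r.choose k) ≤ ∑ ω, p ω * ((s ω * (L ω).choose k : ℕ) : ℝ)) :
    δ * ((r + 1 - k : ℕ) : ℝ) ^ k ≤ ∑ ω, p ω * ((s ω : ℝ) * (L ω : ℝ) ^ k) := by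
  have h1 : ((r + 1 - k : ℕ) : ℝ) ^ k ≤ (k.factorial : ℝ) * (r.choose k : ℝ) := by
    have := Nat.pow_sub_le_descFactorial r k
    rw [Nat.descFactorial_eq_factorial_mul_choose] at this
    exact_mod_cast this
  have h2 : ∀ ω, (k.factorial : ℝ) * ((L ω).choose k : ℝ) ≤ (L ω : ℝ) ^ k := by
    intro ω
    have := Nat.descFactorial_le_pow (L ω) k
    rw [Nat.descFactorial_eq_factorial_mul_choose] at this
    exact_mod_cast this
  calc δ * ((r + 1 - k : ℕ) : ℝ) ^ k ≤ δ * ((k.factorial : ℝ) * (r.choose k : ℝ)) :=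
        mul_le_mul_of_nonneg_left h1 hδ
    _ = (k.factorial : ℝ) * (δ * (r.choose k : ℝ)) := by ring
    _ ≤ (k.factorial : ℝ) * ∑ ω, p ω * ((s ω * (L ω).choose k : ℕ) : ℝ) :=
        mul_le_mul_of_nonneg_left h (by positivity)
    _ = ∑ ω, p ω * ((s ω : ℝ) * ((k.factorial : ℝ) * ((L ω).choose k : ℝ))) := by
        rw [Finset.mul_sum]
        apply Finset.sum_congr rfl
        intro ω _
        push_cast
        ring
    _ ≤ ∑ ω, p ω * ((s ω : ℝ) * (L ω : ℝ) ^ k) := by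
        apply Finset.sum_le_sum
        intro ω _
        apply mul_le_mul_of_nonneg_left _ (hp ω)
        exact mul_le_mul_of_nonneg_left (h2 ω) (by positivity)

end Pool.Agent.H526R2.LS
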