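import Pool.Agent.H526R2.LS.Clique
import Pool.Agent.H526R2.LS.Size

set_option autoImplicit false
set_option linter.unusedSectionVars false

/-! Lower bounds for locally symmetric networks for Exact Triangle. -/

namespace Pool.Agent.H526R2.LS

open Finset

/-- An instance of Exact Triangle: symmetric loopless edge flags `e` and symmetric weights `w`
between `-n^300` and `n^300`, where `n` is the number of vertices. -/
structure ETInst (V : Type*) [Fintype V] where
  /-- the edge flags -/
  e : V → V → Bool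
  /-- the weights -/
  w : V → V → ℤ
  esymm : ∀ i j, e i j = e j i
  wsymm : ∀ i j, w i j = w j i
  loopless : ∀ i, e i i = false
  bound : ∀ i j, |w i j| ≤ (Fintype.card V : ℤ) ^ 300

/-- yes-instances: there is a triangle of total weight zero -/
def ETInst.Yes {V : Type*} [Fintype V] (x : ETInst V) : Prop :=
  ∃ i j k, i ≠ j ∧ j ≠ k ∧ i ≠ k ∧ x.e i j = true ∧ x.e j k = true ∧ x.e i k = true ∧
    x.w i j + x.w j k + x.w i k = 0

variable {V K B : Type*} [Fintype V] [Fintype B] [DecidableEq B] {r : ℕ}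

open Classical in
/-- The network answers correctly on the instance `x`: the input gates reading the cell `(i, j)`
have the value `enc (e i j, w i j)`. -/
def Net.ETOK {Gt : Type*} [Fintype Gt] (N : Net (V × V) K Unit Gt) (enc : Bool × ℤ → K)
    (dec : K → Bool) (x : ETInst V) : Prop :=
  dec (N.val (fun c => enc (x.e c.1 c.2, x.w c.1 c.2)) (N.out ())) = decide x.Yes

/-- Every even permutation of every block extends to an automorphism of the network. -/
def Net.SymBlocksP {O Gt : Type*} (N : Net (V × V) K O Gt) (q : Equiv.Perm V → Equiv.Perm O)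
    (ι : Fin r × B ↪ V) : Prop :=
  ∀ (j : Fin r) (σ : Equiv.Perm B), σ ∈ alternatingGroup B →
    ∃ φ, N.IsAut (pairPerm (blockPerm ι j σ)) (q (blockPerm ι j σ)) φ

open Classical in
/-- the gadget instance -/
noncomputable def etGad (ι : Fin r × B ↪ V) (τ : Fin 3 ↪ Fin r) (lb : ∀ v, B ≃ lab 3 v)
    (c : Fin 3 → Fin 3 → ZMod 5) : ETInst V where
  e i j := decide (i ≠ j)
  w i j := if Rel ι τ lb c i j then 0 else 1
  esymm i j := by rw [decide_eq_decide]; exact ⟨Ne.symm, Ne.symm⟩
  wsymm i j := by
    have : Rel ι τ lb c i j ↔ Rel ι τ lb c j i := ⟨Rel.symm, Rel.symm⟩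
    simp only [this]
  loopless i := by simp
  bound i j := by
    have h1 : (1 : ℤ) ≤ (Fintype.card V : ℤ) ^ 300 := by
      apply one_le_pow₀
      have : 0 < Fintype.card V := Fintype.card_pos_iff.2 ⟨i⟩
      exact_mod_cast this
    split_ifs
    · simp
    · simpa using h1

open Classical in
theorem etGad_yes (ι : Fin r × B ↪ V) (τ : Fin 3 ↪ Fin r) (lb : ∀ v, B ≃ lab 3 v)
    (c : Fin 3 → Fin 3 → ZMod 5) :
    (etGad ι τ lb c).Yes ↔ ∃ f : Fin 3 → V, ∀ u v, u ≠ v → Rel ι τ lb c (f u) (f v) := by
  have hw : ∀ i j, (etGad ι τ lb c).w i j = if Rel ι τ lb c i j then 0 else 1 := fun i j => rfl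
  constructor
  · rintro ⟨i, j, k, -, -, -, -, -, -, h⟩
    rw [hw, hw, hw] at h
    have h1 : Rel ι τ lb c i j := by
      by_contra hc
      rw [if_neg hc] at h
      split_ifs at h <;> omega
    have h2 : Rel ι τ lb c j k := by
      by_contra hc
      rw [if_neg hc] at h
      split_ifs at h <;> omega
    have h3 : Rel ι τ lb c i k := by
      by_contra hc
      rw [if_neg hc] at h
      split_ifs at h <;> omega
    refine ⟨![i, j, k], ?_⟩
    intro u v huv
    fin_cases u <;> fin_cases v
    · exact absurd rfl huv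
    · exact h1
    · exact h3
    · exact h1.symm
    · exact absurd rfl huv
    · exact h2
    · exact h3.symm
    · exact h2.symm
    · exact absurd rfl huv
  · rintro ⟨f, hf⟩
    have h1 := hf 0 1 (by decide)
    have h2 := hf 1 2 (by decide)
    have h3 := hf 0 2 (by decide)
    refine ⟨f 0, f 1, f 2, h1.ne, h2.ne, h3.ne, decide_eq_true h1.ne, decide_eq_true h2.ne,
      decide_eq_true h3.ne, ?_⟩
    rw [hw, hw, hw, if_pos h1, if_pos h2, if_pos h3]
    rfl

open Classical in
theorem exact_lower (hB : Fintype.card B = 5)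
    (enc : Bool × ℤ → K) (dec : K → Bool) (ι : Fin r × B ↪ V) {Ω : Type*} [Fintype Ω]
    (p : Ω → ℝ) (hp : ∀ ω, 0 ≤ p ω) (hp1 : ∑ ω, p ω = 1) (Gt : Ω → Type*)
    [∀ ω, Fintype (Gt ω)] (N : ∀ ω, Net (V × V) K Unit (Gt ω))
    (hsym : ∀ ω, (N ω).SymBlocksP (fun _ => 1) ι) (ε : ℝ) (hε : 2 * ε ≤ 1)
    (herr : ∀ x : ETInst V, ∑ ω with ¬ (N ω).ETOK enc dec x, p ω ≤ ε) :
    (1 - 2 * ε) * ((r + 1 - 3 : ℕ) : ℝ) ^ 3 ≤ ∑ ω, p ω * ((Fintype.card (Gt ω) : ℝ) *
      ((2 * Nat.log 5 (Fintype.card (Gt ω)) + 1 : ℕ) : ℝ) ^ 3) := by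
  apply choose_to_pow p hp (fun ω => Fintype.card (Gt ω))
    (fun ω => 2 * Nat.log 5 (Fintype.card (Gt ω)) + 1) 3 r _ (by linarith)
  have hB5 : 5 ≤ Fintype.card B := by omega
  have hS : ∀ ω, (N ω).SymAll ((pairHom V).comp (actV ι)) 1 := by
    intro ω j a
    obtain ⟨φ, hφ⟩ := hsym ω j a a.2
    refine ⟨φ, ?_⟩
    rw [MonoidHom.comp_apply, actV_single]
    exact hφ
  refine le_trans (random_cover p hp hp1 (fun ω (x : ETInst V) => ¬ (N ω).ETOK enc dec x)
    ε (fun G => by convert herr G) r 3
    (fun ω => (N ω).covered ((pairHom V).comp (actV ι)) 1 3) ?_) ?_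
  · intro A hA
    obtain ⟨τ, hτ⟩ := exists_enum hA
    have hlab := fun v : Fin 3 => exists_lab (B := B) (show 2 ≤ 3 by omega) hB v
    let lb : ∀ v, B ≃ lab 3 v := fun v => (hlab v).some
    refine ⟨etGad ι τ lb 0, etGad ι τ lb (one 0 1), ?_⟩
    intro ω hω
    let X : (Fin 3 → Fin 3 → ZMod 5) → V × V → K := fun c cell =>
      enc ((etGad ι τ lb c).e cell.1 cell.2, (etGad ι τ lb c).w cell.1 cell.2)
    have h1 := (N ω).pair (P := (pairHom V).comp (actV ι)) (Q := 1) τ lb X (by
        rintro c t a ⟨x, y⟩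
        show enc (decide (actV ι (elt τ lb t a) x ≠ actV ι (elt τ lb t a) y), if Rel ι τ lb
          (Function.update c t (c t + a)) (actV ι (elt τ lb t a) x) (actV ι (elt τ lb t a) y)
          then (0 : ℤ) else 1) = enc (decide (x ≠ y), if Rel ι τ lb c x y then (0 : ℤ) else 1)
        congr 1
        apply Prod.ext
        · show decide _ = decide _
          rw [decide_eq_decide]
          exact (actV ι (elt τ lb t a)).injective.ne_iff
        · show (if _ then (0 : ℤ) else 1) = if _ then (0 : ℤ) else 1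
          simp only [rel_act c t a x y]) (by
        rintro t ⟨x, y⟩ c c' hc he
        show enc (decide (x ≠ y), if Rel ι τ lb c x y then (0 : ℤ) else 1) =
          enc (decide (x ≠ y), if Rel ι τ lb c' x y then (0 : ℤ) else 1)
        have hno : ∀ c c', Away t c c' → Rel ι τ lb c x y → ¬ Rel ι τ lb c' x y → False := by
          intro c c' hc h2 h3
          obtain ⟨a, ha⟩ := rel_moved (by norm_num) hc h2 h3
          have h4 := he a
          have h5 : ((actV ι (elt τ lb t a) x, actV ι (elt τ lb t a) y) : V × V) = (x, y) := h4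
          rw [Prod.mk.injEq] at h5
          rcases ha with ⟨h6, h7⟩ | ⟨h6, h7⟩
          · exact h6 h5.1
          · exact h6 h5.2
        have hc' : Away t c' c := fun u v h6 h7 h8 => (hc u v h6 h7 h8).symm
        have hiff : Rel ι τ lb c x y ↔ Rel ι τ lb c' x y := by
          constructor
          · intro h2
            by_contra h3
            exact hno c c' hc h2 h3
          · intro h2
            by_contra h3
            exact hno c' c hc' h2 h3
        simp only [hiff])
      (fun g => not_covered hA hω τ hτ g) 0 ((N ω).out ())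
      (fixed_out (hS ω) _ () (fun γ _ => rfl)) 0 (one 0 1) (away_one 0 1)
    by_contra hcon
    push Not at hcon
    obtain ⟨h2, h3⟩ := hcon
    unfold Net.ETOK at h2 h3
    have h4 : (etGad ι τ lb 0).Yes := by
      rw [etGad_yes]
      obtain ⟨f, hf⟩ := exists_clique ι τ lb
      exact ⟨f, hf⟩
    have h5 : ¬ (etGad ι τ lb (one 0 1)).Yes := by
      rw [etGad_yes]
      rintro ⟨f, hf⟩
      have h6 := total_of_clique (by norm_num) f hf
      rw [total_one (by decide)] at h6
      exact absurd h6 (by decide)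
    have h7 : dec ((N ω).val (X 0) ((N ω).out ())) = true := by
      rw [← decide_eq_true h4]; exact h2
    have h8 : dec ((N ω).val (X (one 0 1)) ((N ω).out ())) = false := by
      rw [← decide_eq_false h5]; exact h3
    rw [h1, h8] at h7
    exact absurd h7 (by decide)
  · apply Finset.sum_le_sum
    intro ω _
    apply mul_le_mul_of_nonneg_left _ (hp ω)
    exact_mod_cast (hS ω).card_covered (alt_index hB5) (alt_perfect hB5) 3

end Pool.Agent.H526R2.LS
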