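import Mathlib

set_option autoImplicit false
set_option linter.unusedSectionVars false

/-! Networks with several outputs and values in an arbitrary set `K`, whose gates compute arbitrary
functions of the multiset of their inputs. -/

namespace Pool.Agent.H526R2.LS

open Finset

/-- An acyclic network with inputs indexed by `I`, outputs indexed by `O`, values in `K` and set of
gates `Gt`. -/
structure Net (I K O Gt : Type*) where
  /-- the input read by an input gate (`none` for the other gates) -/
  inp : Gt → Option I
  /-- `w h g` is the number of wires from `h` to `g` -/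
  w : Gt → Gt → ℕ
  /-- `F g s` is the value of the gate `g` when `s` is the multiset of the values of its incoming
  wires -/
  F : Gt → Multiset K → K
  /-- the output gates -/
  out : O → Gt
  /-- a rank witnessing that the network is acyclic -/
  rank : Gt → ℕ
  acyc : ∀ h g, 0 < w h g → rank h < rank g

variable {I K O Gt : Type*} [Fintype Gt]

/-- The value of a gate on the input `x`. -/
def Net.val (N : Net I K O Gt) (x : I → K) (g : Gt) : K :=
  match N.inp g with
  | some i => x i
  | none => N.F g (∑ h, if _hw : 0 < N.w h g then N.w h g • {N.val x h} else 0)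
termination_by N.rank g
decreasing_by exact N.acyc _ _ _hw

theorem Net.val_some (N : Net I K O Gt) (x : I → K) {g : Gt} {i : I}
    (h : N.inp g = some i) : N.val x g = x i := by
  rw [Net.val]
  simp only [h]

theorem Net.val_none (N : Net I K O Gt) (x : I → K) {g : Gt}
    (h : N.inp g = none) : N.val x g = N.F g (∑ h, N.w h g • {N.val x h}) := by
  rw [Net.val]
  simp only [h]
  congr 1
  apply Finset.sum_congr rfl
  intro k _
  split_ifs with hw
  · rfl
  · have : N.w k g = 0 := by omega
    rw [this, zero_smul]

/-- `φ` is an automorphism of the network extending the permutation `p` of the inputs and the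
permutation `q` of the outputs -/
structure Net.IsAut (N : Net I K O Gt) (p : Equiv.Perm I) (q : Equiv.Perm O)
    (φ : Equiv.Perm Gt) : Prop where
  inp : ∀ g, N.inp (φ g) = (N.inp g).map p
  w : ∀ h g, N.w (φ h) (φ g) = N.w h g
  F : ∀ g, N.F (φ g) = N.F g
  out : ∀ o, φ (N.out o) = N.out (q o)

variable {N : Net I K O Gt}

omit [Fintype Gt] in
theorem Net.IsAut.one : N.IsAut 1 1 1 := by
  refine ⟨?_, fun _ _ => rfl, fun _ => rfl, fun _ => rfl⟩
  intro g
  cases h : N.inp g with
  | none => simp [h]
  | some e => simp [h]

omit [Fintype Gt] in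
theorem Net.IsAut.mul {p p' : Equiv.Perm I} {q q' : Equiv.Perm O} {φ φ' : Equiv.Perm Gt}
    (h : N.IsAut p q φ) (h' : N.IsAut p' q' φ') : N.IsAut (p * p') (q * q') (φ * φ') := by
  refine ⟨?_, ?_, ?_, ?_⟩
  · intro g
    rw [Equiv.Perm.mul_apply, h.inp, h'.inp, Option.map_map]
    rfl
  · intro k g
    rw [Equiv.Perm.mul_apply, Equiv.Perm.mul_apply, h.w, h'.w]
  · intro g
    rw [Equiv.Perm.mul_apply, h.F, h'.F]
  · intro o
    rw [Equiv.Perm.mul_apply, h'.out, h.out]
    rfl

theorem perm_apply_inv {α : Type*} (p : Equiv.Perm α) (x : α) : p (p⁻¹ x) = x :=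
  Equiv.apply_symm_apply p x

theorem perm_inv_apply {α : Type*} (p : Equiv.Perm α) (x : α) : p⁻¹ (p x) = x :=
  Equiv.symm_apply_apply p x

omit [Fintype Gt] in
theorem Net.IsAut.inv {p : Equiv.Perm I} {q : Equiv.Perm O} {φ : Equiv.Perm Gt}
    (h : N.IsAut p q φ) : N.IsAut p⁻¹ q⁻¹ φ⁻¹ := by
  refine ⟨?_, ?_, ?_, ?_⟩
  · intro g
    have h1 := h.inp (φ⁻¹ g)
    rw [perm_apply_inv] at h1
    rw [h1, Option.map_map]
    have : ((p⁻¹ : Equiv.Perm I) : I → I) ∘ p = id := by
      ext x; exact perm_inv_apply p x
    rw [this, Option.map_id]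
    rfl
  · intro k g
    rw [← h.w, perm_apply_inv, perm_apply_inv]
  · intro g
    rw [← h.F, perm_apply_inv]
  · intro o
    have h1 := h.out (q⁻¹ o)
    rw [perm_apply_inv] at h1
    rw [← h1, perm_inv_apply]

/-- Isomorphism invariance of evaluation. -/
theorem Net.IsAut.val {p : Equiv.Perm I} {q : Equiv.Perm O} {φ : Equiv.Perm Gt}
    (h : N.IsAut p q φ) {x x' : I → K} (hx : ∀ i, x' (p i) = x i) (g : Gt) :
    N.val x' (φ g) = N.val x g := by
  have key : ∀ n, ∀ g, N.rank g = n → N.val x' (φ g) = N.val x g := by
    intro n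
    induction n using Nat.strong_induction_on with
    | _ n ih =>
      intro g hg
      cases hi : N.inp g with
      | some e =>
        have hi' : N.inp (φ g) = some (p e) := by rw [h.inp, hi]; rfl
        rw [N.val_some x' hi', N.val_some x hi]
        exact hx e
      | none =>
        have hi' : N.inp (φ g) = none := by rw [h.inp, hi]; rfl
        rw [N.val_none x' hi', N.val_none x hi, h.F]
        congr 1
        rw [← Equiv.sum_comp φ]
        apply Finset.sum_congr rfl
        intro k _
        rw [h.w]
        by_cases hw : 0 < N.w k g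
        · rw [ih (N.rank k) (by rw [← hg]; exact N.acyc _ _ hw) k rfl]
        · have : N.w k g = 0 := by omega
          rw [this, zero_smul, zero_smul]
  exact key _ g rfl

section core

variable {Γ T : Type*} [Group Γ]

/-- the gate `g` is fixed by all elements of `H` (in the sense that every `γ ∈ H` acts by some
automorphism which fixes `g`) -/
def Net.Fixed (N : Net I K O Gt) (P : Γ →* Equiv.Perm I) (Q : Γ →* Equiv.Perm O)
    (H : Subgroup Γ) (g : Gt) : Prop :=
  ∀ γ ∈ H, ∃ φ, N.IsAut (P γ) (Q γ) φ ∧ φ g = g

omit [Fintype Gt] in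
theorem Net.Fixed.of_aut {P : Γ →* Equiv.Perm I} {Q : Γ →* Equiv.Perm O}
    {H : Subgroup Γ} [H.Normal] {γ : Γ} {φ : Equiv.Perm Gt} (hφ : N.IsAut (P γ) (Q γ) φ) {g : Gt}
    (hg : N.Fixed P Q H g) : N.Fixed P Q H (φ g) := by
  intro δ hδ
  obtain ⟨ψ, hψ, hψg⟩ := hg (γ⁻¹ * δ * γ) (by
    have := Subgroup.Normal.conj_mem (inferInstance : H.Normal) δ hδ γ⁻¹
    rwa [inv_inv] at this)
  refine ⟨φ * ψ * φ⁻¹, ?_, ?_⟩
  · have h1 := (hφ.mul hψ).mul hφ.inv
    have e1 : P γ * P (γ⁻¹ * δ * γ) * (P γ)⁻¹ = P δ := by
      rw [← map_inv, ← map_mul, ← map_mul]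
      congr 1
      group
    have e2 : Q γ * Q (γ⁻¹ * δ * γ) * (Q γ)⁻¹ = Q δ := by
      rw [← map_inv, ← map_mul, ← map_mul]
      congr 1
      group
    rwa [e1, e2] at h1
  · rw [Equiv.Perm.mul_apply, Equiv.Perm.mul_apply, perm_inv_apply, hψg]

omit [Fintype Gt] in
theorem Net.Fixed.iff_aut {P : Γ →* Equiv.Perm I} {Q : Γ →* Equiv.Perm O}
    {H : Subgroup Γ} [H.Normal] {γ : Γ} {φ : Equiv.Perm Gt} (hφ : N.IsAut (P γ) (Q γ) φ) (g : Gt) :
    N.Fixed P Q H (φ g) ↔ N.Fixed P Q H g := by
  constructor
  · intro h
    have h1 : N.IsAut (P γ⁻¹) (Q γ⁻¹) φ⁻¹ := by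
      rw [map_inv, map_inv]; exact hφ.inv
    have := Net.Fixed.of_aut h1 h
    rwa [perm_inv_apply] at this
  · intro h
    exact Net.Fixed.of_aut hφ h

open Classical in
/-- **Main induction.** If every gate is fixed by one of the normal subgroups `H t`, then a gate
fixed by `H t` does not see the difference between configurations related by `E t`. -/
theorem Net.core [Fintype T] (N : Net I K O Gt) (P : Γ →* Equiv.Perm I) (Q : Γ →* Equiv.Perm O)
    (H : T → Subgroup Γ) (hN : ∀ t, (H t).Normal) {C : Type*} (x : C → I → K)
    (E : T → C → C → Prop)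
    (h2 : ∀ t i c c', E t c c' → (∀ γ ∈ H t, P γ i = i) → x c i = x c' i)
    (h3 : ∀ t u, t ≠ u → ∀ c c', E t c c' →
      ∃ γ ∈ H t, ∃ c'', (∀ i, x c'' (P γ i) = x c i) ∧ E u c'' c')
    (h1 : ∀ g, ∃ t, N.Fixed P Q (H t) g) :
    ∀ g t, N.Fixed P Q (H t) g → ∀ c c', E t c c' → N.val (x c) g = N.val (x c') g := by
  have key : ∀ n, ∀ g, N.rank g = n → ∀ t, N.Fixed P Q (H t) g → ∀ c c', E t c c' →
      N.val (x c) g = N.val (x c') g := by
    intro n
    induction n using Nat.strong_induction_on with
    | _ n ih =>
      intro g hg t hfix c c' hE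
      cases hi : N.inp g with
      | some i =>
        rw [N.val_some _ hi, N.val_some _ hi]
        apply h2 t i c c' hE
        intro γ hγ
        obtain ⟨φ, hφ, hφg⟩ := hfix γ hγ
        have h4 := hφ.inp g
        rw [hφg, hi, Option.map_some] at h4
        exact (Option.some.inj h4).symm
      | none =>
        rw [N.val_none _ hi, N.val_none _ hi]
        congr 1
        -- canonical class of a gate
        let S : Gt → Set T := fun h => {u | N.Fixed P Q (H u) h}
        have hS : ∀ h, (S h).Nonempty := h1
        let cls : Gt → T := fun h => if t ∈ S h then t else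
          if hh : (S h).Nonempty then hh.choose else t
        have hcls : ∀ h, N.Fixed P Q (H (cls h)) h := by
          intro h
          simp only [cls]
          by_cases ht : t ∈ S h
          · rw [if_pos ht]; exact ht
          · rw [if_neg ht, dif_pos (hS h)]
            exact (hS h).choose_spec
        have hinv : ∀ γ φ, N.IsAut (P γ) (Q γ) φ → ∀ h, cls (φ h) = cls h := by
          intro γ φ hφ h
          have hSS : S (φ h) = S h := by
            ext u
            have := hN u
            exact Net.Fixed.iff_aut hφ h
          simp only [cls, hSS]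
        rw [← Finset.sum_fiberwise (s := (Finset.univ : Finset Gt)) (g := cls),
          ← Finset.sum_fiberwise (s := (Finset.univ : Finset Gt)) (g := cls)]
        apply Finset.sum_congr rfl
        intro u _
        by_cases hu : t = u
        · subst hu
          apply Finset.sum_congr rfl
          intro h hh
          rw [Finset.mem_filter] at hh
          by_cases hw : 0 < N.w h g
          · have h5 := hcls h
            rw [hh.2] at h5
            rw [ih (N.rank h) (by rw [← hg]; exact N.acyc _ _ hw) h rfl t h5 c c' hE]
          · have : N.w h g = 0 := by omega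
            rw [this, zero_smul, zero_smul]
        · obtain ⟨γ, hγ, c'', hc'', hE'⟩ := h3 t u hu c c' hE
          obtain ⟨φ, hφ, hφg⟩ := hfix γ hγ
          have e1 : ∑ h with cls h = u, N.w h g • ({N.val (x c) h} : Multiset K) =
              ∑ h with cls h = u, N.w h g • ({N.val (x c'') h} : Multiset K) := by
            apply Finset.sum_equiv φ
            · intro h
              simp only [Finset.mem_filter, Finset.mem_univ, true_and]
              rw [hinv γ φ hφ h]
            · intro h _
              rw [hφ.val hc'' h]
              congr 1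
              have := hφ.w h g
              rw [hφg] at this
              exact this.symm
          rw [e1]
          apply Finset.sum_congr rfl
          intro h hh
          rw [Finset.mem_filter] at hh
          by_cases hw : 0 < N.w h g
          · have h5 := hcls h
            rw [hh.2] at h5
            rw [ih (N.rank h) (by rw [← hg]; exact N.acyc _ _ hw) h rfl u h5 c'' c' hE']
          · have : N.w h g = 0 := by omega
            rw [this, zero_smul, zero_smul]
  intro g t hfix c c' hE
  exact key _ g rfl t hfix c c' hE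

end core

end Pool.Agent.H526R2.LS
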