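import Pool.Agent.H526R2.LS.Net
import Pool.Agent.H545R2.Support

set_option autoImplicit false
set_option linter.unusedSectionVars false

/-! Supports of gates: a gate of a small network symmetric under a power of an alternating group is
fixed by almost all factors; hence all `k`-subsets of the factors are covered by few gates. -/

namespace Pool.Agent.H526R2.LS

open Finset

section alt

variable {B : Type*} [Fintype B] [DecidableEq B]

theorem alt_index (hB : 5 ≤ Fintype.card B) (K : Subgroup (alternatingGroup B)) (hK : K ≠ ⊤) :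
    ∃ f : Fin 5 → alternatingGroup B, ∀ s s', s ≠ s' → (f s)⁻¹ * f s' ∉ K := by
  classical
  have hs : IsSimpleGroup (alternatingGroup B) :=
    alternatingGroup.isSimpleGroup (by rw [Nat.card_eq_fintype_card]; exact hB)
  have hnt : Nontrivial B := Fintype.one_lt_card_iff_nontrivial.1 (by omega)
  have h60 : 60 ≤ Nat.card (alternatingGroup B) := by
    have h := two_mul_nat_card_alternatingGroup (α := B)
    have h5 : (5).factorial ≤ (Fintype.card B).factorial := Nat.factorial_le hB
    rw [Nat.card_perm, Nat.card_eq_fintype_card (α := B)] at h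
    simp only [Nat.factorial] at h5
    omega
  have hidx : 5 ≤ K.index := by
    by_contra hcon
    push Not at hcon
    have hN : K.normalCore = ⊥ ∨ K.normalCore = ⊤ :=
      Subgroup.Normal.eq_bot_or_eq_top inferInstance
    rcases hN with h | h
    · have hinj : Function.Injective (MulAction.toPermHom (alternatingGroup B)
          (alternatingGroup B ⧸ K)) := by
        rw [← MonoidHom.ker_eq_bot_iff, ← Subgroup.normalCore_eq_ker, h]
      have hc := Nat.card_le_card_of_injective _ hinj
      rw [Nat.card_perm] at hc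
      have h2 : Nat.card (alternatingGroup B ⧸ K) = K.index := rfl
      rw [h2] at hc
      have h3 : K.index.factorial ≤ (4).factorial := Nat.factorial_le (by omega)
      simp only [Nat.factorial] at h3
      omega
    · apply hK
      rw [eq_top_iff, ← h]
      exact Subgroup.normalCore_le K
  have hfin : Fintype (alternatingGroup B ⧸ K) := Fintype.ofFinite _
  have hcard : 5 ≤ Fintype.card (alternatingGroup B ⧸ K) := by
    rw [← Nat.card_eq_fintype_card]; exact hidx
  obtain ⟨e⟩ : Nonempty (Fin 5 ↪ alternatingGroup B ⧸ K) := by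
    apply Function.Embedding.nonempty_of_card_le
    simpa using hcard
  refine ⟨fun s => (e s).out, ?_⟩
  intro s s' hs hmem
  apply hs
  apply e.injective
  rw [← QuotientGroup.eq] at hmem
  simpa using hmem

theorem alt_perfect (hB : 5 ≤ Fintype.card B) : commutator (alternatingGroup B) = ⊤ := by
  have hs : IsSimpleGroup (alternatingGroup B) :=
    alternatingGroup.isSimpleGroup (by rw [Nat.card_eq_fintype_card]; exact hB)
  have hnt : Nontrivial B := Fintype.one_lt_card_iff_nontrivial.1 (by omega)
  have hN : commutator (alternatingGroup B) = ⊥ ∨ commutator (alternatingGroup B) = ⊤ :=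
    Subgroup.Normal.eq_bot_or_eq_top inferInstance
  rcases hN with h | h
  · exfalso
    rw [commutator_eq_bot_iff_center_eq_top] at h
    rw [alternatingGroup.center_eq_bot (by rw [Nat.card_eq_fintype_card]; omega)] at h
    have h1 : Nat.card (alternatingGroup B) = 1 := by
      rw [← Subgroup.card_top, ← h, Subgroup.card_bot]
    have h2 := two_mul_nat_card_alternatingGroup (α := B)
    have h5 : (5).factorial ≤ (Fintype.card B).factorial := Nat.factorial_le hB
    rw [Nat.card_perm, Nat.card_eq_fintype_card (α := B)] at h2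
    simp only [Nat.factorial] at h5
    omega
  · exact h

end alt

section supp

variable {I K O Gt : Type*} [Fintype Gt] {T : Type*} [Group T] {r : ℕ}

/-- the `j`-th factor -/
def fac (T : Type*) [Group T] {r : ℕ} (j : Fin r) : Subgroup (Fin r → T) :=
  (MonoidHom.mulSingle (fun _ : Fin r => T) j).range

instance fac_normal (j : Fin r) : (fac T j).Normal := by
  refine ⟨?_⟩
  rintro _ ⟨a, rfl⟩ γ
  refine ⟨γ j * a * (γ j)⁻¹, ?_⟩
  funext i
  by_cases h : i = j
  · subst h
    simp
  · simp [h]

theorem mem_fac {j : Fin r} {γ : Fin r → T} : γ ∈ fac T j ↔ ∃ a, Pi.mulSingle j a = γ := Iff.rfl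

/-- the network is symmetric on all factors -/
def Net.SymAll (N : Net I K O Gt) (P : (Fin r → T) →* Equiv.Perm I)
    (Q : (Fin r → T) →* Equiv.Perm O) : Prop :=
  ∀ j a, ∃ φ, N.IsAut (P (Pi.mulSingle j a)) (Q (Pi.mulSingle j a)) φ

omit [Fintype Gt] in
theorem Net.SymAll.all {N : Net I K O Gt} {P : (Fin r → T) →* Equiv.Perm I}
    {Q : (Fin r → T) →* Equiv.Perm O} (h : N.SymAll P Q) (γ : Fin r → T) :
    ∃ φ, N.IsAut (P γ) (Q γ) φ := by
  let A : Subgroup (Fin r → T) :=
    { carrier := {γ | ∃ φ, N.IsAut (P γ) (Q γ) φ}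
      one_mem' := ⟨1, by rw [map_one, map_one]; exact Net.IsAut.one⟩
      mul_mem' := by
        rintro a b ⟨φ, hφ⟩ ⟨ψ, hψ⟩
        refine ⟨φ * ψ, ?_⟩
        rw [map_mul, map_mul]
        exact hφ.mul hψ
      inv_mem' := by
        rintro a ⟨φ, hφ⟩
        refine ⟨φ⁻¹, ?_⟩
        rw [map_inv, map_inv]
        exact hφ.inv }
  have h1 : (Subgroup.pi Set.univ (fun _ : Fin r => (⊤ : Subgroup T))) ≤ A := by
    rw [Subgroup.pi_le_iff]
    intro j
    rw [Subgroup.map_le_iff_le_comap]
    intro a _
    exact h j a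
  exact h1 (by
    intro i _
    trivial)

/-- every gate of a small symmetric network is fixed by almost all factors -/
theorem Net.SymAll.supp {N : Net I K O Gt} {P : (Fin r → T) →* Equiv.Perm I}
    {Q : (Fin r → T) →* Equiv.Perm O} (h : N.SymAll P Q)
    (hT1 : ∀ K : Subgroup T, K ≠ ⊤ → ∃ f : Fin 5 → T, ∀ s s', s ≠ s' → (f s)⁻¹ * f s' ∉ K)
    (hT2 : commutator T = ⊤) (m : ℕ) (hm : Fintype.card Gt < 5 ^ m) (g : Gt) :
    ∃ S : Finset (Fin r), S.card < 2 * m ∧ ∀ j ∉ S, N.Fixed P Q (fac T j) g := by
  classical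
  choose φ hφ using h.all
  let St : Subgroup (Fin r → T) :=
    { carrier := {γ | ∃ ψ, N.IsAut (P γ) (Q γ) ψ ∧ ψ g = g}
      one_mem' := ⟨1, by rw [map_one, map_one]; exact ⟨Net.IsAut.one, rfl⟩⟩
      mul_mem' := by
        rintro a b ⟨φ, hφ, hφg⟩ ⟨ψ, hψ, hψg⟩
        refine ⟨φ * ψ, ?_, ?_⟩
        · rw [map_mul, map_mul]
          exact hφ.mul hψ
        · rw [Equiv.Perm.mul_apply, hψg, hφg]
      inv_mem' := by
        rintro a ⟨φ, hφ, hφg⟩
        refine ⟨φ⁻¹, ?_, ?_⟩
        · rw [map_inv, map_inv]
          exact hφ.inv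
        · rw [Equiv.Perm.inv_eq_iff_eq]
          exact hφg.symm }
  obtain ⟨S, hS, hS2⟩ := Pool.Agent.H545R2.support_general hT1 hT2 St (fun γ => φ γ g) (by
    intro γ γ' hγ
    refine ⟨(φ γ)⁻¹ * φ γ', ?_, ?_⟩
    · rw [map_mul, map_mul, map_inv, map_inv]
      exact (hφ γ).inv.mul (hφ γ')
    · rw [Equiv.Perm.mul_apply, Equiv.Perm.inv_eq_iff_eq]
      exact hγ.symm) m hm
  refine ⟨S, hS, ?_⟩
  intro j hj γ hγ
  obtain ⟨a, rfl⟩ := mem_fac.1 hγ
  exact hS2 j hj a

/-- the set of factors by which `g` is not fixed -/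
noncomputable def Net.moved (N : Net I K O Gt) (P : (Fin r → T) →* Equiv.Perm I)
    (Q : (Fin r → T) →* Equiv.Perm O) (g : Gt) : Finset (Fin r) := by
  classical
  exact Finset.univ.filter (fun j => ¬ N.Fixed P Q (fac T j) g)

theorem Net.SymAll.card_moved {N : Net I K O Gt} {P : (Fin r → T) →* Equiv.Perm I}
    {Q : (Fin r → T) →* Equiv.Perm O} (h : N.SymAll P Q)
    (hT1 : ∀ K : Subgroup T, K ≠ ⊤ → ∃ f : Fin 5 → T, ∀ s s', s ≠ s' → (f s)⁻¹ * f s' ∉ K)
    (hT2 : commutator T = ⊤) (g : Gt) :
    (N.moved P Q g).card ≤ 2 * Nat.log 5 (Fintype.card Gt) + 1 := by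
  classical
  obtain ⟨S, hS, hS2⟩ := h.supp hT1 hT2 (Nat.log 5 (Fintype.card Gt) + 1)
    (Nat.lt_pow_succ_log_self (by norm_num) _) g
  have h1 : N.moved P Q g ⊆ S := by
    intro j hj
    by_contra hcon
    unfold Net.moved at hj
    rw [Finset.mem_filter] at hj
    exact hj.2 (hS2 j hcon)
  have := Finset.card_le_card h1
  omega

/-- the `k`-sets of factors such that some gate is moved by all of them -/
noncomputable def Net.covered (N : Net I K O Gt) (P : (Fin r → T) →* Equiv.Perm I)
    (Q : (Fin r → T) →* Equiv.Perm O) (k : ℕ) : Finset (Finset (Fin r)) := by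
  classical
  exact (Finset.powersetCard k Finset.univ).filter (fun A => ∃ g, A ⊆ N.moved P Q g)

theorem Net.SymAll.card_covered {N : Net I K O Gt} {P : (Fin r → T) →* Equiv.Perm I}
    {Q : (Fin r → T) →* Equiv.Perm O} (h : N.SymAll P Q)
    (hT1 : ∀ K : Subgroup T, K ≠ ⊤ → ∃ f : Fin 5 → T, ∀ s s', s ≠ s' → (f s)⁻¹ * f s' ∉ K)
    (hT2 : commutator T = ⊤) (k : ℕ) :
    (N.covered P Q k).card ≤
      Fintype.card Gt * (2 * Nat.log 5 (Fintype.card Gt) + 1).choose k := by
  classical
  have h1 : N.covered P Q k ⊆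
      Finset.univ.biUnion (fun g : Gt => Finset.powersetCard k (N.moved P Q g)) := by
    intro A hA
    unfold Net.covered at hA
    rw [Finset.mem_filter, Finset.mem_powersetCard] at hA
    obtain ⟨⟨_, hA1⟩, g, hg⟩ := hA
    rw [Finset.mem_biUnion]
    exact ⟨g, Finset.mem_univ _, Finset.mem_powersetCard.2 ⟨hg, hA1⟩⟩
  calc (N.covered P Q k).card ≤ _ := Finset.card_le_card h1
    _ ≤ ∑ g : Gt, (Finset.powersetCard k (N.moved P Q g)).card := Finset.card_biUnion_le
    _ ≤ ∑ _g : Gt, (2 * Nat.log 5 (Fintype.card Gt) + 1).choose k := by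
        apply Finset.sum_le_sum
        intro g _
        rw [Finset.card_powersetCard]
        exact Nat.choose_le_choose k (h.card_moved hT1 hT2 g)
    _ = _ := by
        rw [Finset.sum_const, Finset.card_univ, smul_eq_mul]

end supp

section random

open Classical in
/-- Averaging: if for every `k`-set `A` there are two inputs such that a network not covering `A`
errs on one of them, then a random network which errs with probability at most `ε` on every input
covers many `k`-sets, so it has many gates on average. -/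
theorem random_cover {Ω : Type*} [Fintype Ω] (p : Ω → ℝ) (hp : ∀ ω, 0 ≤ p ω) (hp1 : ∑ ω, p ω = 1)
    {X : Type*} (err : Ω → X → Prop) (ε : ℝ) (herr : ∀ x, ∑ ω with err ω x, p ω ≤ ε)
    (r k : ℕ) (cov : Ω → Finset (Finset (Fin r)))
    (hcov : ∀ A ∈ Finset.powersetCard k (Finset.univ : Finset (Fin r)), ∃ x x' : X,
      ∀ ω, A ∉ cov ω → err ω x ∨ err ω x') :
    (1 - 2 * ε) * (r.choose k) ≤ ∑ ω, p ω * (cov ω).card := by
  have h1 : ∀ A ∈ Finset.powersetCard k (Finset.univ : Finset (Fin r)),
      1 - 2 * ε ≤ ∑ ω with A ∈ cov ω, p ω := by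
    intro A hA
    obtain ⟨x, x', hx⟩ := hcov A hA
    have h2 : (∑ ω with A ∈ cov ω, p ω) + ∑ ω with ¬ A ∈ cov ω, p ω = 1 := by
      rw [Finset.sum_filter_add_sum_filter_not, hp1]
    have h3 : ∑ ω with ¬ A ∈ cov ω, p ω ≤ (∑ ω with err ω x, p ω) + ∑ ω with err ω x', p ω := by
      calc ∑ ω with ¬ A ∈ cov ω, p ω
          ≤ ∑ ω ∈ (Finset.univ.filter (fun ω => err ω x)) ∪
              (Finset.univ.filter (fun ω => err ω x')), p ω := by
            apply Finset.sum_le_sum_of_subset_of_nonneg
            · intro ω hω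
              rw [Finset.mem_filter] at hω
              rw [Finset.mem_union, Finset.mem_filter, Finset.mem_filter]
              rcases hx ω hω.2 with h | h
              · exact Or.inl ⟨Finset.mem_univ _, h⟩
              · exact Or.inr ⟨Finset.mem_univ _, h⟩
            · intro ω _ _
              exact hp ω
        _ ≤ _ := by
            rw [← Finset.sum_union_inter]
            have : 0 ≤ ∑ ω ∈ (Finset.univ.filter (fun ω => err ω x)) ∩
              (Finset.univ.filter (fun ω => err ω x')), p ω :=
              Finset.sum_nonneg (fun ω _ => hp ω)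
            linarith
    have h4 := herr x
    have h5 := herr x'
    linarith
  calc (1 - 2 * ε) * (r.choose k)
      = ∑ _A ∈ Finset.powersetCard k (Finset.univ : Finset (Fin r)), (1 - 2 * ε) := by
        rw [Finset.sum_const, Finset.card_powersetCard, Finset.card_univ, Fintype.card_fin,
          nsmul_eq_mul]
        ring
    _ ≤ ∑ A ∈ Finset.powersetCard k (Finset.univ : Finset (Fin r)), ∑ ω with A ∈ cov ω, p ω :=
        Finset.sum_le_sum h1
    _ = ∑ ω, ∑ A ∈ Finset.powersetCard k (Finset.univ : Finset (Fin r)),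
          if A ∈ cov ω then p ω else 0 := by
        rw [Finset.sum_comm]
        apply Finset.sum_congr rfl
        intro A _
        rw [Finset.sum_filter]
    _ ≤ ∑ ω, p ω * (cov ω).card := by
        apply Finset.sum_le_sum
        intro ω _
        rw [← Finset.sum_filter, Finset.sum_const, nsmul_eq_mul, mul_comm]
        apply mul_le_mul_of_nonneg_left _ (hp ω)
        have : ((Finset.powersetCard k (Finset.univ : Finset (Fin r))).filter
            (fun A => A ∈ cov ω)).card ≤ (cov ω).card := by
          apply Finset.card_le_card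
          intro A hA
          exact (Finset.mem_filter.1 hA).2
        exact_mod_cast this

end random

end Pool.Agent.H526R2.LS
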