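import Pool.Agent.H526R2.LS.Exact

set_option autoImplicit false
set_option linter.unusedSectionVars false

/-! Fully symmetric networks of the trivial size for cliques and Exact Triangle. -/

namespace Pool.Agent.H526R2.LS

open Finset

theorem mem_wires {I K O Gt : Type*} [Fintype Gt] (N : Net I K O Gt) (f : Gt → K) (g : Gt) (a : K) :
    a ∈ (∑ h, N.w h g • ({f h} : Multiset K)) ↔ ∃ h, 0 < N.w h g ∧ a = f h := by
  rw [Multiset.mem_sum]
  constructor
  · rintro ⟨h, _, hh⟩
    rw [Multiset.mem_nsmul] at hh
    exact ⟨h, by omega, Multiset.mem_singleton.1 hh.2⟩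
  · rintro ⟨h, h1, h2⟩
    refine ⟨h, Finset.mem_univ _, ?_⟩
    rw [Multiset.mem_nsmul]
    exact ⟨by omega, Multiset.mem_singleton.2 h2⟩

section clique

variable (V : Type) [Fintype V] [DecidableEq V] (k : ℕ)

/-- gates: input gates, one gate for every set of `k` vertices, and the output gate -/
abbrev CG : Type := Sym2 V ⊕ ({s : Finset V // s.card = k} ⊕ Unit)

/-- the trivial network for cliques -/
def cliqueNet : Net (Sym2 V) Bool Unit (CG V k) where
  inp g := match g with
    | Sum.inl e => some e
    | Sum.inr _ => none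
  w h g := match h, g with
    | Sum.inl e, Sum.inr (Sum.inl s) => if e ∈ s.1.sym2 ∧ ¬ e.IsDiag then 1 else 0
    | Sum.inr (Sum.inl _), Sum.inr (Sum.inr _) => 1
    | _, _ => 0
  F g m := match g with
    | Sum.inr (Sum.inl _) => decide (false ∉ m)
    | _ => decide (true ∈ m)
  out _ := Sum.inr (Sum.inr ())
  rank g := match g with
    | Sum.inl _ => 0
    | Sum.inr (Sum.inl _) => 1
    | Sum.inr (Sum.inr _) => 2
  acyc h g := by
    rcases h with e | s | _ <;> rcases g with e' | s' | _ <;> simp

theorem cliqueNet_val_set (G : SimpleGraph V) (s : {s : Finset V // s.card = k}) :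
    (cliqueNet V k).val (graphInput id G) (Sum.inr (Sum.inl s)) = true ↔ G.IsClique s.1 := by
  rw [Net.val_none _ _ (show (cliqueNet V k).inp (Sum.inr (Sum.inl s)) = none from rfl)]
  show decide (false ∉ ∑ h, (cliqueNet V k).w h (Sum.inr (Sum.inl s)) • _) = true ↔ _
  rw [decide_eq_true_iff, mem_wires]
  constructor
  · intro h u hu v hv huv
    by_contra hcon
    apply h
    refine ⟨Sum.inl s(u, v), ?_, ?_⟩
    · show 0 < if s(u, v) ∈ s.1.sym2 ∧ ¬ (s(u, v) : Sym2 V).IsDiag then 1 else 0
      rw [if_pos]
      · norm_num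
      · refine ⟨?_, ?_⟩
        · rw [Finset.mk_mem_sym2_iff]
          exact ⟨hu, hv⟩
        · rw [Sym2.mk_isDiag_iff]
          exact huv
    · rw [Net.val_some _ _ (show (cliqueNet V k).inp (Sum.inl s(u, v)) = some s(u, v) from rfl)]
      symm
      simp only [graphInput, id, decide_eq_false_iff_not]
      exact hcon
  · rintro h ⟨g, hg, hg2⟩
    rcases g with e | s' | _
    · have h1 : e ∈ s.1.sym2 ∧ ¬ e.IsDiag := by
        by_contra hcon
        have : (cliqueNet V k).w (Sum.inl e) (Sum.inr (Sum.inl s)) = 0 := if_neg hcon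
        omega
      rw [Net.val_some _ _ (show (cliqueNet V k).inp (Sum.inl e) = some e from rfl)] at hg2
      have h2 := hg2.symm
      simp only [graphInput, id, decide_eq_false_iff_not] at h2
      apply h2
      induction e with
      | h u v =>
        rw [Finset.mk_mem_sym2_iff, Sym2.mk_isDiag_iff] at h1
        exact h h1.1.1 h1.1.2 h1.2
    · exact absurd hg (by simp [cliqueNet])
    · exact absurd hg (by simp [cliqueNet])

theorem cliqueNet_ok (G : SimpleGraph V) : (cliqueNet V k).CliqueOK id id k G := by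
  classical
  unfold Net.CliqueOK
  have h1 : (cliqueNet V k).val (graphInput id G) ((cliqueNet V k).out ()) = true ↔
      ¬ G.CliqueFree k := by
    rw [Net.val_none _ _ (show (cliqueNet V k).inp ((cliqueNet V k).out ()) = none from rfl)]
    show decide (true ∈ ∑ h, (cliqueNet V k).w h ((cliqueNet V k).out ()) • _) = true ↔ _
    rw [decide_eq_true_iff, mem_wires]
    constructor
    · rintro ⟨g, hg, hg2⟩
      rcases g with e | s | _
      · exact absurd hg (by simp [cliqueNet])
      · have h2 := (cliqueNet_val_set V k G s).1 hg2.symm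
        intro h3
        exact h3 s.1 ⟨h2, s.2⟩
      · exact absurd hg (by simp [cliqueNet])
    · intro h
      unfold SimpleGraph.CliqueFree at h
      push Not at h
      obtain ⟨s, hs⟩ := h
      refine ⟨Sum.inr (Sum.inl ⟨s, hs.2⟩), ?_, ?_⟩
      · simp [cliqueNet]
      · exact ((cliqueNet_val_set V k G ⟨s, hs.2⟩).2 hs.1).symm
  show (cliqueNet V k).val (graphInput id G) ((cliqueNet V k).out ()) = _
  rw [Bool.eq_iff_iff, h1, decide_eq_true_iff]

/-- action on the gates -/
def cliquePerm (π : Equiv.Perm V) : Equiv.Perm (CG V k) :=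
  Equiv.sumCongr (sym2Perm π) (Equiv.sumCongr
    (Equiv.subtypeEquiv (Equiv.finsetCongr π) (fun s => by
      rw [Equiv.finsetCongr_apply, Finset.card_map])) (Equiv.refl Unit))

theorem cliqueNet_sym (π : Equiv.Perm V) :
    (cliqueNet V k).IsAut (sym2Perm π) 1 (cliquePerm V k π) := by
  refine ⟨?_, ?_, ?_, ?_⟩
  · intro g
    rcases g with e | s | _ <;> rfl
  · intro h g
    rcases h with e | s | _ <;> rcases g with e' | s' | _ <;> try rfl
    show (if Sym2.map π e ∈ (Finset.map π.toEmbedding s'.1).sym2 ∧ ¬ (Sym2.map π e).IsDiag then 1 else 0) =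
      if e ∈ s'.1.sym2 ∧ ¬ e.IsDiag then 1 else 0
    have hiff : (Sym2.map π e ∈ (Finset.map π.toEmbedding s'.1).sym2 ∧ ¬ (Sym2.map π e).IsDiag) ↔
        (e ∈ s'.1.sym2 ∧ ¬ e.IsDiag) := by
      induction e with
      | h u v =>
        rw [Sym2.map_mk, Finset.mk_mem_sym2_iff, Finset.mk_mem_sym2_iff, Sym2.mk_isDiag_iff,
          Sym2.mk_isDiag_iff]
        simp
    simp only [hiff]
  · intro g
    rcases g with e | s | _ <;> rfl
  · intro o
    rfl

theorem card_CG : Fintype.card (CG V k) ≤ Fintype.card V ^ k + Fintype.card V ^ 2 + 1 := by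
  rw [Fintype.card_sum, Fintype.card_sum, Fintype.card_unit, Sym2.card,
    Fintype.card_finset_len]
  have h1 : (Fintype.card V).choose k ≤ Fintype.card V ^ k := Nat.choose_le_pow _ _
  have h2 : (Fintype.card V + 1).choose 2 ≤ Fintype.card V ^ 2 := by
    rw [Nat.choose_two_right]
    rcases Nat.eq_zero_or_pos (Fintype.card V) with h | h
    · rw [h]; norm_num
    · have h3 : (Fintype.card V + 1) * (Fintype.card V + 1 - 1) ≤ 2 * Fintype.card V ^ 2 := by
        rw [Nat.add_sub_cancel]
        nlinarith
      omega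
  omega

end clique

section et

variable (V : Type) [Fintype V] [DecidableEq V]

/-- gates: input gates, one gate for every triple of vertices, and the output gate -/
abbrev EG : Type := (V × V) ⊕ ((V × V × V) ⊕ Unit)

/-- the trivial network for Exact Triangle -/
def etNet : Net (V × V) (Bool × ℤ) Unit (EG V) where
  inp g := match g with
    | Sum.inl e => some e
    | Sum.inr _ => none
  w h g := match h, g with
    | Sum.inl c, Sum.inr (Sum.inl t) =>
      (if c = (t.1, t.2.1) then 1 else 0) + (if c = (t.2.1, t.2.2) then 1 else 0) +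
        (if c = (t.1, t.2.2) then 1 else 0)
    | Sum.inr (Sum.inl _), Sum.inr (Sum.inr _) => 1
    | _, _ => 0
  F g m := match g with
    | Sum.inr (Sum.inl _) => (decide ((∀ x ∈ m, x.1 = true) ∧ (m.map Prod.snd).sum = 0), 0)
    | _ => (decide (true ∈ m.map Prod.fst), 0)
  out _ := Sum.inr (Sum.inr ())
  rank g := match g with
    | Sum.inl _ => 0
    | Sum.inr (Sum.inl _) => 1
    | Sum.inr (Sum.inr _) => 2
  acyc h g := by
    rcases h with e | s | _ <;> rcases g with e' | s' | _ <;> simp

/-- the input -/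
def etIn {V : Type} [Fintype V] (x : ETInst V) : V × V → Bool × ℤ := fun c => (x.e c.1 c.2, x.w c.1 c.2)

theorem etNet_val (x : ETInst V) (i j k : V) :
    ((etNet V).val (etIn x) (Sum.inr (Sum.inl (i, j, k)))).1 = true ↔
      x.e i j = true ∧ x.e j k = true ∧ x.e i k = true ∧ x.w i j + x.w j k + x.w i k = 0 := by
  rw [Net.val_none _ _ (show (etNet V).inp (Sum.inr (Sum.inl (i, j, k))) = none from rfl)]
  have hm : ∑ h, (etNet V).w h (Sum.inr (Sum.inl (i, j, k))) •
      ({(etNet V).val (etIn x) h} : Multiset (Bool × ℤ)) =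
      {etIn x (i, j)} + {etIn x (j, k)} + {etIn x (i, k)} := by
    rw [Fintype.sum_sum_type]
    have h2 : ∑ h : (V × V × V) ⊕ Unit, (etNet V).w (Sum.inr h) (Sum.inr (Sum.inl (i, j, k))) •
        ({(etNet V).val (etIn x) (Sum.inr h)} : Multiset (Bool × ℤ)) = 0 := by
      apply Finset.sum_eq_zero
      intro h _
      have : (etNet V).w (Sum.inr h) (Sum.inr (Sum.inl (i, j, k))) = 0 := by
        rcases h with h | h <;> rfl
      rw [this, zero_smul]
    rw [h2, add_zero]
    have h3 : ∀ c : V × V, (etNet V).w (Sum.inl c) (Sum.inr (Sum.inl (i, j, k))) •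
        ({(etNet V).val (etIn x) (Sum.inl c)} : Multiset (Bool × ℤ)) =
        (if c = (i, j) then {etIn x c} else 0) + (if c = (j, k) then {etIn x c} else 0) +
          (if c = (i, k) then {etIn x c} else 0) := by
      intro c
      rw [Net.val_some _ _ (show (etNet V).inp (Sum.inl c) = some c from rfl)]
      show ((if c = (i, j) then 1 else 0) + (if c = (j, k) then 1 else 0) +
        (if c = (i, k) then 1 else 0) : ℕ) • ({etIn x c} : Multiset (Bool × ℤ)) = _
      rw [add_smul, add_smul]
      simp only [ite_smul, one_smul, zero_smul]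
    simp only [h3, Finset.sum_add_distrib, Finset.sum_ite_eq', Finset.mem_univ, if_true]
  rw [hm]
  show decide _ = true ↔ _
  rw [decide_eq_true_iff]
  simp only [Multiset.mem_add, Multiset.mem_singleton, Multiset.map_add, Multiset.map_singleton,
    Multiset.sum_add, Multiset.sum_singleton, etIn]
  constructor
  · rintro ⟨h1, h2⟩
    exact ⟨h1 _ (Or.inl (Or.inl rfl)), h1 _ (Or.inl (Or.inr rfl)), h1 _ (Or.inr rfl), h2⟩
  · rintro ⟨h1, h2, h3, h4⟩
    refine ⟨?_, h4⟩
    rintro y ((rfl | rfl) | rfl)
    · exact h1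
    · exact h2
    · exact h3

theorem etNet_ok (x : ETInst V) : (etNet V).ETOK id Prod.fst x := by
  classical
  unfold Net.ETOK
  have h1 : ((etNet V).val (etIn x) ((etNet V).out ())).1 = true ↔ x.Yes := by
    rw [Net.val_none _ _ (show (etNet V).inp ((etNet V).out ()) = none from rfl)]
    show decide (true ∈ Multiset.map Prod.fst (∑ h, (etNet V).w h ((etNet V).out ()) •
      ({(etNet V).val (etIn x) h} : Multiset (Bool × ℤ)))) = true ↔ _
    rw [decide_eq_true_iff, Multiset.mem_map]
    constructor
    · rintro ⟨y, hy, hy2⟩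
      rw [mem_wires] at hy
      obtain ⟨g, hg, rfl⟩ := hy
      rcases g with e | ⟨i, j, k⟩ | _
      · exact absurd hg (by simp [etNet])
      · rw [etNet_val] at hy2
        obtain ⟨h1, h2, h3, h4⟩ := hy2
        refine ⟨i, j, k, ?_, ?_, ?_, h1, h2, h3, h4⟩
        · rintro rfl
          rw [x.loopless] at h1
          exact absurd h1 (by decide)
        · rintro rfl
          rw [x.loopless] at h2
          exact absurd h2 (by decide)
        · rintro rfl
          rw [x.loopless] at h3
          exact absurd h3 (by decide)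
      · exact absurd hg (by simp [etNet])
    · rintro ⟨i, j, k, -, -, -, h1, h2, h3, h4⟩
      refine ⟨(etNet V).val (etIn x) (Sum.inr (Sum.inl (i, j, k))), ?_, ?_⟩
      · rw [mem_wires]
        exact ⟨Sum.inr (Sum.inl (i, j, k)), by simp [etNet], rfl⟩
      · rw [etNet_val]
        exact ⟨h1, h2, h3, h4⟩
  show ((etNet V).val (etIn x) ((etNet V).out ())).1 = _
  rw [Bool.eq_iff_iff, h1, decide_eq_true_iff]

/-- action on the gates -/
def etPerm (π : Equiv.Perm V) : Equiv.Perm (EG V) :=
  Equiv.sumCongr (pairPerm π) (Equiv.sumCongr (Equiv.prodCongr π (Equiv.prodCongr π π))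
    (Equiv.refl Unit))

theorem etNet_sym (π : Equiv.Perm V) : (etNet V).IsAut (pairPerm π) 1 (etPerm V π) := by
  refine ⟨?_, ?_, ?_, ?_⟩
  · intro g
    rcases g with e | s | _ <;> rfl
  · intro h g
    rcases h with ⟨a, b⟩ | s | _ <;> rcases g with e' | ⟨i, j, k⟩ | _ <;> try rfl
    show (if ((π a, π b) : V × V) = (π i, π j) then 1 else 0) +
      (if ((π a, π b) : V × V) = (π j, π k) then 1 else 0) +
      (if ((π a, π b) : V × V) = (π i, π k) then 1 else 0) =
      (if ((a, b) : V × V) = (i, j) then 1 else 0) + (if ((a, b) : V × V) = (j, k) then 1 else 0) +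
      (if ((a, b) : V × V) = (i, k) then 1 else 0)
    simp only [Prod.mk.injEq, EmbeddingLike.apply_eq_iff_eq]
  · intro g
    rcases g with e | s | _ <;> rfl
  · intro o
    rfl

theorem card_EG : Fintype.card (EG V) = Fintype.card V ^ 3 + Fintype.card V ^ 2 + 1 := by
  rw [Fintype.card_sum, Fintype.card_sum, Fintype.card_unit, Fintype.card_prod, Fintype.card_prod,
    Fintype.card_prod]
  ring

end et

end Pool.Agent.H526R2.LS
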